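import Mathlib
import Pool.Agent.Y327.Rigid2
import Pool.Agent.Y327.RealComm
import Pool.Agent.H715R2.CaseB

/-! # A number field acting diagonally: the real embeddings -/

open Filter Topology Matrix NumberField NumberField.mixedEmbedding

set_option linter.unusedSectionVars false

namespace Pool.Agent.V7H90.Iso

open H715R2 Pool.Agent.Y327

variable {K : Type*} [Field K] [NumberField K] {d : ℕ}

/-- the field acts on the rows by real embeddings -/
def Act (ι : K →+* Module.End ℚ (Fin d → ℚ)) (φ : Fin d → K →+* ℝ)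
    (h : Matrix (Fin d) (Fin d) ℝ) : Prop :=
  ∀ x, h * kap (ι x) = diagonal (fun i => φ i x) * h

lemma diag_inj {h : Matrix (Fin d) (Fin d) ℝ} (hu : IsUnit h.det) {a b : Fin d → ℝ}
    (hab : diagonal a * h = diagonal b * h) : a = b := by
  have h1 := congrArg (fun m => m * h⁻¹) hab
  simp only [Matrix.mul_assoc] at h1
  rw [Matrix.mul_nonsing_inv _ hu, Matrix.mul_one, Matrix.mul_one] at h1
  exact diagonal_injective h1

/-- **The embeddings.** -/
theorem exists_emb (ι : K →+* Module.End ℚ (Fin d → ℚ)) {h : Matrix (Fin d) (Fin d) ℝ}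
    (hu : IsUnit h.det) (hs : ∀ x, ∃ a : Fin d → ℝ, h * kap (ι x) = diagonal a * h) :
    ∃ φ : Fin d → K →+* ℝ, Act ι φ h := by
  choose a ha using hs
  refine ⟨fun i =>
    { toFun := fun x => a x i
      map_one' := ?_
      map_mul' := ?_
      map_zero' := ?_
      map_add' := ?_ }, ha⟩
  · have h1 : a 1 = fun _ => (1 : ℝ) := by
      apply diag_inj hu
      rw [← ha, map_one, map_one, Matrix.mul_one, diagonal_one, Matrix.one_mul]
    rw [h1]
  · intro x y
    have h1 : a (x * y) = fun i => a x i * a y i := by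
      apply diag_inj hu
      rw [← ha, map_mul, map_mul, ← Matrix.mul_assoc, ha, Matrix.mul_assoc, ha,
        ← Matrix.mul_assoc, diagonal_mul_diagonal]
    rw [h1]
  · have h1 : a 0 = fun _ => (0 : ℝ) := by
      apply diag_inj hu
      rw [← ha, map_zero, map_zero, Matrix.mul_zero]
      have : (diagonal (fun _ : Fin d => (0 : ℝ)) : Matrix (Fin d) (Fin d) ℝ) = 0 := diagonal_zero
      rw [this, Matrix.zero_mul]
    rw [h1]
  · intro x y
    have h1 : a (x + y) = fun i => a x i + a y i := by
      apply diag_inj hu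
      rw [← ha, map_add, map_add, Matrix.mul_add, ha, ha, ← Matrix.add_mul, diagonal_add]
    rw [h1]

/-- every complex embedding occurs -/
theorem exists_index (hd : 0 < d) {ι : K →+* Module.End ℚ (Fin d → ℚ)} {φ : Fin d → K →+* ℝ}
    {h : Matrix (Fin d) (Fin d) ℝ} (hu : IsUnit h.det) (hφ : Act ι φ h) (τ : K →+* ℂ) :
    ∃ i, τ = Complex.ofRealHom.comp (φ i) := by
  classical
  have : Nonempty (Fin d) := ⟨⟨0, hd⟩⟩
  obtain ⟨x, hx⟩ := Field.exists_primitive_element ℚ K
  set A : Matrix (Fin d) (Fin d) ℚ := LinearMap.toMatrix' (ι x) with hA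
  have hkap : kap (ι x) = A.map (algebraMap ℚ ℝ) := by
    have h1 := kap_toLin' A
    rw [hA, Matrix.toLin'_toMatrix'] at h1
    rw [h1]
    rfl
  have hcp : (kap (ι x)).charpoly = ∏ i, (Polynomial.X - Polynomial.C (φ i x)) := by
    have h1 : (h * (kap (ι x) * h⁻¹)).charpoly = (kap (ι x) * h⁻¹ * h).charpoly :=
      Matrix.charpoly_mul_comm _ _
    rw [← Matrix.mul_assoc, hφ x, Matrix.mul_assoc, Matrix.mul_nonsing_inv _ hu, Matrix.mul_one,
      Matrix.mul_assoc, Matrix.nonsing_inv_mul _ hu, Matrix.mul_one,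
      Matrix.charpoly_diagonal] at h1
    exact h1.symm
  have hmap : A.charpoly.map (algebraMap ℚ ℝ) = ∏ i, (Polynomial.X - Polynomial.C (φ i x)) := by
    rw [← hcp, hkap]
    exact (Matrix.charpoly_map A (algebraMap ℚ ℝ)).symm
  -- the characteristic polynomial annihilates the generator
  have hann : Polynomial.aeval x A.charpoly = 0 := by
    have h1 : Polynomial.aeval (ι x) A.charpoly = 0 := by
      have h2 := Matrix.aeval_self_charpoly A
      have h3 : Polynomial.aeval (Matrix.toLin' A) A.charpoly =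
          Matrix.toLinAlgEquiv' (Polynomial.aeval A A.charpoly) := by
        rw [← Polynomial.aeval_algHom_apply]
        rfl
      rw [h2, map_zero, hA, Matrix.toLin'_toMatrix'] at h3
      rw [hA]
      exact h3
    have h2 : ι (Polynomial.aeval x A.charpoly) = Polynomial.aeval (ι x) A.charpoly := by
      have h3 := Polynomial.aeval_algHom_apply (ι.toRatAlgHom) x A.charpoly
      exact h3.symm
    rw [h1] at h2
    have hnt : Nontrivial (Module.End ℚ (Fin d → ℚ)) := inferInstance
    exact (map_eq_zero_iff ι ι.injective).1 h2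
  have hτ : Polynomial.aeval (τ x) A.charpoly = 0 := by
    have h3 := Polynomial.aeval_algHom_apply (τ.toRatAlgHom) x A.charpoly
    rw [hann, map_zero] at h3
    exact h3
  have hτ2 : ∏ i, (τ x - ((φ i x : ℝ) : ℂ)) = 0 := by
    have h4 : Polynomial.aeval (τ x) A.charpoly =
        Polynomial.aeval (τ x) (A.charpoly.map (algebraMap ℚ ℝ)) := by
      rw [Polynomial.aeval_map_algebraMap]
    rw [h4, hmap, map_prod] at hτ
    rw [← hτ]
    refine Finset.prod_congr rfl fun i _ => ?_
    rw [map_sub, Polynomial.aeval_X, Polynomial.aeval_C]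
    rfl
  obtain ⟨i, -, hi⟩ := Finset.prod_eq_zero_iff.1 hτ2
  refine ⟨i, ?_⟩
  have h5 : τ x = (Complex.ofRealHom.comp (φ i)) x := by
    rw [sub_eq_zero] at hi
    exact hi
  have hsplit : ∀ y : K, ((minpoly ℚ y).map (algebraMap ℚ ℂ)).Splits := fun y =>
    IsAlgClosed.splits _
  have h6 := (Field.primitive_element_iff_algHom_eq_of_eval ℚ ℂ hsplit x (τ.toRatAlgHom)).1 hx
    ((Complex.ofRealHom.comp (φ i)).toRatAlgHom) h5
  ext z
  exact congrFun (congrArg DFunLike.coe h6) z

lemma all_real (hd : 0 < d) {ι : K →+* Module.End ℚ (Fin d → ℚ)} {φ : Fin d → K →+* ℝ}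
    {h : Matrix (Fin d) (Fin d) ℝ} (hu : IsUnit h.det) (hφ : Act ι φ h) (τ : K →+* ℂ) :
    ComplexEmbedding.IsReal τ := by
  obtain ⟨i, rfl⟩ := exists_index hd hu hφ τ
  rw [ComplexEmbedding.isReal_iff]
  ext z
  simp [ComplexEmbedding.conjugate]

end Pool.Agent.V7H90.Iso
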