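import Mathlib
import Pool.Agent.V7H90.Iso.Emb

/-! # The units of a number field acting diagonally -/

open Filter Topology Matrix NumberField NumberField.mixedEmbedding

set_option linter.unusedSectionVars false

namespace Pool.Agent.V7H90.Iso

open H715R2 Pool.Agent.Y327

variable {K : Type*} [Field K] [NumberField K] {d : ℕ}

/-- the complex embedding given by a real one -/
noncomputable def cx (φ : K →+* ℝ) : K →+* ℂ := Complex.ofRealHom.comp φ

lemma cx_inj {φ ψ : K →+* ℝ} (h : cx φ = cx ψ) : φ = ψ := by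
  ext z
  have h1 := congrArg (fun f : K →+* ℂ => f z) h
  exact Complex.ofReal_injective h1

/-- the logarithm of a conjugate of the power of a unit -/
noncomputable def lr (N : ℕ) (φ : K →+* ℝ) (v : (𝓞 K)ˣ) : ℝ := lg N (cx φ) v

lemma phi_unit (hreal : ∀ τ : K →+* ℂ, ComplexEmbedding.IsReal τ) {N : ℕ} (hN : Even N)
    (φ : K →+* ℝ) (v : (𝓞 K)ˣ) : φ (uu N v) = Real.exp (lr N φ v) := by
  have h1 := pos_real hreal N hN (cx φ) v
  exact Complex.ofReal_injective h1

/-- a suitable even power of every unit acts integrally -/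
theorem exists_even_pow (ι : K →+* Module.End ℚ (Fin d → ℚ)) : ∃ N : ℕ, 0 < N ∧ Even N ∧
    ∀ v : (𝓞 K)ˣ, ∃ γ : Matrix (Fin d) (Fin d) ℤ, IsUnit γ.det ∧ kap (ι (uu N v)) = zR γ := by
  obtain ⟨N, hN, h⟩ := exists_pow_int ι
  refine ⟨2 * N, by omega, even_two_mul N, fun v => ?_⟩
  obtain ⟨γ, h1, h2⟩ := h (v ^ 2)
  refine ⟨γ, h1, ?_⟩
  rw [← h2, uu, pow_mul]

/-- **The action on the limits.** -/
theorem act_mem {ι : K →+* Module.End ℚ (Fin d → ℚ)} {φ : Fin d → K →+* ℝ}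
    (hreal : ∀ τ : K →+* ℂ, ComplexEmbedding.IsReal τ) {N : ℕ} (hN : Even N)
    {M : Set (Matrix (Fin d) (Fin d) ℝ)} (hMinv : InvB id M) {h₀ : Matrix (Fin d) (Fin d) ℝ}
    (hu : IsUnit h₀.det) (hφ : Act ι φ h₀) {v : (𝓞 K)ˣ} {γ : Matrix (Fin d) (Fin d) ℤ}
    (hγ : IsUnit γ.det) (hγ2 : kap (ι (uu N v)) = zR γ) {E : Matrix (Fin d) (Fin d) ℝ}
    (hE : E * h₀ ∈ M) :
    (Matrix.of fun i j => Real.exp (lr N (φ j) v - lr N (φ i) v) * E i j) * h₀ ∈ M := by
  have h1 : h₀ * zR γ = diagonal (fun i => Real.exp (lr N (φ i) v)) * h₀ := by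
    rw [← hγ2, hφ]
    simp only [phi_unit hreal hN]
  have hprod : ∏ i, Real.exp (lr N (φ i) v) = 1 := by
    have h2 := congrArg Matrix.det h1
    rw [det_mul, det_mul, det_diagonal, det_zR, mul_comm] at h2
    have h3 := mul_right_cancel₀ (isUnit_iff_ne_zero.1 hu) h2
    have h4 : 0 < ∏ i, Real.exp (lr N (φ i) v) := Finset.prod_pos fun i _ => Real.exp_pos _
    have h5 := abs_det_of_isUnit hγ
    rw [h3, abs_of_pos h4] at h5
    exact h5
  have h2 : (Matrix.of fun i j => Real.exp (lr N (φ j) v - lr N (φ i) v) * E i j) * h₀ =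
      diagonal (fun i => Real.exp (-lr N (φ i) v)) * (E * h₀) * zR γ := by
    rw [Matrix.mul_assoc, Matrix.mul_assoc, h1]
    ext i j
    rw [diagonal_mul, Matrix.mul_apply, Matrix.mul_apply, Finset.mul_sum]
    refine Finset.sum_congr rfl fun k _ => ?_
    rw [diagonal_mul, Matrix.of_apply, sub_eq_add_neg, Real.exp_add]
    ring
  rw [h2]
  refine hMinv _ hE _ _ ⟨fun i => Real.exp_pos _, ?_, fun i j hij => by rw [show i = j from hij]⟩ hγ
  rw [← Real.exp_sum, Finset.sum_neg_distrib, Real.exp_neg, Real.exp_sum, hprod, inv_one]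

end Pool.Agent.V7H90.Iso
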