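import Mathlib
import Pool.Agent.V7H90.Iso.Units

/-! # The exit: one block survives -/

open Filter Topology Matrix NumberField NumberField.mixedEmbedding

set_option linter.unusedSectionVars false

namespace Pool.Agent.V7H90.Iso

open H715R2 Pool.Agent.Y327

variable {K : Type*} [Field K] [NumberField K] {d : ℕ}

/-- the extremal off-block entry -/
def Ext (φ : Fin d → K →+* ℝ) (E : Matrix (Fin d) (Fin d) ℝ) (p : Fin d × Fin d) : Prop :=
  φ p.1 ≠ φ p.2 ∧ E p.1 p.2 ≠ 0 ∧ |E p.1 p.2| ≤ 1 ∧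
    ∀ i j, φ i ≠ φ j → |E i j| ≤ |E p.1 p.2|

lemma exists_ext {φ : Fin d → K →+* ℝ} {E : Matrix (Fin d) (Fin d) ℝ}
    (h1 : ∃ i j, φ i ≠ φ j ∧ E i j ≠ 0) (h2 : ∀ i j, φ i ≠ φ j → |E i j| ≤ 1) :
    ∃ p, Ext φ E p := by
  classical
  set S : Finset (Fin d × Fin d) := Finset.univ.filter (fun p => φ p.1 ≠ φ p.2) with hS
  obtain ⟨i, j, hij, h0⟩ := h1
  obtain ⟨p, hp, hmax⟩ := S.exists_max_image (fun p => |E p.1 p.2|)
    ⟨(i, j), by simpa [hS] using hij⟩
  have hp' : φ p.1 ≠ φ p.2 := by simpa [hS] using hp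
  refine ⟨p, hp', ?_, h2 _ _ hp', fun a b hab => hmax (a, b) (by simpa [hS] using hab)⟩
  intro h3
  have h4 := hmax (i, j) (by simpa [hS] using hij)
  rw [h3, abs_zero] at h4
  exact h0 (abs_nonpos_iff.1 h4)

lemma frequently_pair {X : Type*} {l : Filter X} {d : ℕ} {Q : X → Fin d × Fin d → Prop}
    (h : ∃ᶠ x in l, ∃ p, Q x p) : ∃ p, ∃ᶠ x in l, Q x p := by
  by_contra hcon
  rw [not_exists] at hcon
  have h1 : ∀ᶠ x in l, ∀ p : Fin d × Fin d, ¬ Q x p :=
    Filter.eventually_all.2 fun p => not_frequently.1 (hcon p)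
  exact h (h1.mono fun x hx ⟨p, hp⟩ => hx p hp)

/-- **The exit.** -/
theorem exists_exit {ι : K →+* Module.End ℚ (Fin d → ℚ)} {φ : Fin d → K →+* ℝ}
    (hreal : ∀ τ : K →+* ℂ, ComplexEmbedding.IsReal τ)
    {M : Set (Matrix (Fin d) (Fin d) ℝ)} (hMc : IsClosed M) (hMinv : InvB id M)
    {h₀ : Matrix (Fin d) (Fin d) ℝ} (hu : IsUnit h₀.det) (hφ : Act ι φ h₀)
    (hfr : ∃ᶠ h in 𝓝[M] h₀, ∃ i j, φ i ≠ φ j ∧ (h * h₀⁻¹) i j ≠ 0) :
    ∃ (σ τ : K →+* ℝ) (w : Matrix (Fin d) (Fin d) ℝ), σ ≠ τ ∧ w ≠ 0 ∧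
      (∀ i j, ¬ (φ i = σ ∧ φ j = τ) → w i j = 0) ∧ (1 + w) * h₀ ∈ M := by
  classical
  obtain ⟨N, hN, hNe, hact⟩ := exists_even_pow ι
  choose γ hγ hγ2 using hact
  obtain ⟨R, hR0, hR⟩ := near_real hreal N hN
  -- a fixed pair
  have hcont : Tendsto (fun h : Matrix (Fin d) (Fin d) ℝ => h * h₀⁻¹) (𝓝 h₀) (𝓝 1) := by
    have h1 : Continuous (fun h : Matrix (Fin d) (Fin d) ℝ => h * h₀⁻¹) :=
      continuous_id.matrix_mul continuous_const
    have h2 := h1.tendsto h₀
    rwa [Matrix.mul_nonsing_inv _ hu] at h2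
  have hle : ∀ᶠ h in 𝓝[M] h₀, ∀ i j, φ i ≠ φ j → |(h * h₀⁻¹) i j| ≤ 1 := by
    refine Filter.eventually_all.2 fun i => Filter.eventually_all.2 fun j => ?_
    by_cases hij : φ i = φ j
    · exact Eventually.of_forall fun h h1 => absurd hij h1
    · have hne : i ≠ j := fun h => hij (by rw [h])
      have h1 : Tendsto (fun h : Matrix (Fin d) (Fin d) ℝ => |(h * h₀⁻¹) i j|) (𝓝 h₀) (𝓝 0) := by
        have h2 := ((continuous_apply_apply i j).tendsto (1 : Matrix (Fin d) (Fin d) ℝ)).comp hcont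
        rw [Matrix.one_apply_ne hne] at h2
        have h3 := h2.abs
        rwa [abs_zero] at h3
      have h2 := (h1.mono_left (nhdsWithin_le_nhds (s := M))).eventually
        (gt_mem_nhds (zero_lt_one' ℝ))
      exact h2.mono fun h h3 _ => h3.le
  obtain ⟨p, hp⟩ := frequently_pair ((hfr.and_eventually hle).mono fun h h1 =>
    exists_ext h1.1 h1.2)
  obtain ⟨hs, hs1, hs2⟩ := Filter.exists_seq_forall_of_frequently
    (hp.and_eventually self_mem_nhdsWithin)
  have hslim : Tendsto hs atTop (𝓝 h₀) := hs1.mono_right nhdsWithin_le_nhds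
  set σ := φ p.1 with hσ
  set τ := φ p.2 with hτ
  have hστ : σ ≠ τ := (hs2 0).1.1
  have hστc : cx σ ≠ cx τ := fun h => hστ (cx_inj h)
  set E : ℕ → Matrix (Fin d) (Fin d) ℝ := fun n => hs n * h₀⁻¹ with hE
  have hEh : ∀ n, E n * h₀ = hs n := by
    intro n
    simp only [hE]
    rw [Matrix.mul_assoc, Matrix.nonsing_inv_mul _ hu, Matrix.mul_one]
  have hElim : Tendsto E atTop (𝓝 1) := hcont.comp hslim
  have hent : ∀ i j, Tendsto (fun n => E n i j) atTop (𝓝 ((1 : Matrix (Fin d) (Fin d) ℝ) i j)) :=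
    fun i j => (continuous_apply_apply i j).tendsto (1 : Matrix (Fin d) (Fin d) ℝ) |>.comp hElim
  set c : ℕ → ℝ := fun n => |E n p.1 p.2| with hc
  have hc0 : ∀ n, 0 < c n := fun n => abs_pos.2 (hs2 n).1.2.1
  have hc1 : ∀ n, c n ≤ 1 := fun n => (hs2 n).1.2.2.1
  have hcm : ∀ n i j, φ i ≠ φ j → |E n i j| ≤ c n := fun n => (hs2 n).1.2.2.2
  have hclim : Tendsto c atTop (𝓝 0) := by
    have hne : p.1 ≠ p.2 := fun h => hστ (by rw [hσ, hτ, h])
    have h1 := (hent p.1 p.2).abs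
    rwa [Matrix.one_apply_ne hne, abs_zero] at h1
  -- the units
  set T : ℕ → ℝ := fun n => -Real.log (c n) with hT
  have hT0 : ∀ n, 0 ≤ T n := fun n => by
    rw [hT]
    exact neg_nonneg.2 (Real.log_nonpos (hc0 n).le (hc1 n))
  set q : ℕ → (K →+* ℂ) → ℝ := fun n ρ => if ρ = cx σ then -(T n / 2) else
    if ρ = cx τ then T n / 2 else 0 with hq
  have hqσ : ∀ n, q n (cx σ) = -(T n / 2) := fun n => by simp [hq]
  have hqτ : ∀ n, q n (cx τ) = T n / 2 := fun n => by simp [hq, hστc.symm]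
  have hqo : ∀ n ρ, ρ ≠ cx σ → ρ ≠ cx τ → q n ρ = 0 := fun n ρ h1 h2 => by simp [hq, h1, h2]
  have hqsum : ∀ n, ∑ ρ : K →+* ℂ, q n ρ = 0 := by
    intro n
    have hsub : ∑ ρ ∈ ({cx σ, cx τ} : Finset (K →+* ℂ)), q n ρ = ∑ ρ : K →+* ℂ, q n ρ := by
      refine Finset.sum_subset (Finset.subset_univ _) fun ρ _ hρ => ?_
      simp only [Finset.mem_insert, Finset.mem_singleton, not_or] at hρ
      exact hqo n ρ hρ.1 hρ.2
    rw [← hsub, Finset.sum_insert (by simpa using hστc), Finset.sum_singleton, hqσ, hqτ]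
    ring
  choose v hv using fun n => hR (q n) (hqsum n)
  have hvr : ∀ n i, |lr N (φ i) (v n) - q n (cx (φ i))| ≤ R := fun n i => hv n _
  set E' : ℕ → Matrix (Fin d) (Fin d) ℝ := fun n =>
    Matrix.of fun i j => Real.exp (lr N (φ j) (v n) - lr N (φ i) (v n)) * E n i j with hE'
  have hE'M : ∀ n, E' n * h₀ ∈ M := by
    intro n
    refine act_mem hreal hNe hMinv hu hφ (hγ (v n)) (hγ2 (v n)) ?_
    rw [hEh]
    exact (hs2 n).2
  have hexpT : ∀ n, Real.exp (T n) * c n = 1 := by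
    intro n
    rw [hT]
    simp only
    rw [Real.exp_neg, Real.exp_log (hc0 n), inv_mul_cancel₀ (hc0 n).ne']
  -- the size of the entries
  have hsame : ∀ n i j, φ i = φ j → E' n i j = E n i j := by
    intro n i j hij
    simp only [hE', Matrix.of_apply]
    rw [hij, sub_self, Real.exp_zero, one_mul]
  have hmain : ∀ n i j, φ i = σ → φ j = τ → |E' n i j| ≤ Real.exp (2 * R) := by
    intro n i j hi hj
    simp only [hE', Matrix.of_apply]
    rw [abs_mul, abs_of_pos (Real.exp_pos _)]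
    have h1 := abs_le.1 (hvr n i)
    have h2 := abs_le.1 (hvr n j)
    rw [hi, hqσ] at h1
    rw [hj, hqτ] at h2
    rw [hi, hj]
    have h3 : |E n i j| ≤ c n := hcm n i j (by rw [hi, hj]; exact hστ)
    calc Real.exp (lr N τ (v n) - lr N σ (v n)) * |E n i j|
        ≤ Real.exp (T n + 2 * R) * c n := by
          refine mul_le_mul (Real.exp_le_exp.2 ?_) h3 (abs_nonneg _) (Real.exp_pos _).le
          linarith [h1.1, h2.2]
      _ = Real.exp (2 * R) := by rw [Real.exp_add, mul_right_comm, hexpT, one_mul]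
  have hoth : ∀ n i j, φ i ≠ φ j → ¬ (φ i = σ ∧ φ j = τ) →
      |E' n i j| ≤ Real.exp (2 * R) * Real.sqrt (c n) := by
    intro n i j hij hnot
    simp only [hE', Matrix.of_apply]
    rw [abs_mul, abs_of_pos (Real.exp_pos _)]
    have h1 := abs_le.1 (hvr n i)
    have h2 := abs_le.1 (hvr n j)
    have h3 : |E n i j| ≤ c n := hcm n i j hij
    have h4 : q n (cx (φ j)) - q n (cx (φ i)) ≤ T n / 2 := by
      have hTn := hT0 n
      by_cases hi : φ i = σ
      · have hj : φ j ≠ τ := fun hj => hnot ⟨hi, hj⟩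
        have hj2 : φ j ≠ σ := fun hj2 => hij (by rw [hi, hj2])
        rw [hi, hqσ, hqo n _ (fun h => hj2 (cx_inj h)) (fun h => hj (cx_inj h))]
        linarith
      · by_cases hj : φ j = τ
        · rw [hj, hqτ]
          have hi2 : φ i ≠ τ := fun hi2 => hij (by rw [hi2, hj])
          rw [hqo n _ (fun h => hi (cx_inj h)) (fun h => hi2 (cx_inj h))]
          linarith
        · have h5 : q n (cx (φ j)) ≤ 0 := by
            by_cases hj2 : φ j = σ
            · rw [hj2, hqσ]; linarith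
            · rw [hqo n _ (fun h => hj2 (cx_inj h)) (fun h => hj (cx_inj h))]
          have h6 : 0 ≤ q n (cx (φ i)) := by
            by_cases hi2 : φ i = τ
            · rw [hi2, hqτ]; linarith
            · rw [hqo n _ (fun h => hi (cx_inj h)) (fun h => hi2 (cx_inj h))]
          linarith
    have h5 : Real.exp (T n / 2) * c n = Real.sqrt (c n) := by
      have h6 : Real.exp (T n / 2) = (Real.sqrt (c n))⁻¹ := by
        rw [← Real.exp_log (Real.sqrt_pos.2 (hc0 n)), ← Real.exp_neg, Real.log_sqrt (hc0 n).le]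
        congr 1
        simp only [hT]
        ring
      rw [h6]
      have h7 := Real.mul_self_sqrt (hc0 n).le
      have h8 := (Real.sqrt_pos.2 (hc0 n)).ne'
      field_simp
      linarith
    calc Real.exp (lr N (φ j) (v n) - lr N (φ i) (v n)) * |E n i j|
        ≤ Real.exp (T n / 2 + 2 * R) * c n := by
          refine mul_le_mul (Real.exp_le_exp.2 ?_) h3 (abs_nonneg _) (Real.exp_pos _).le
          linarith [h1.1, h2.2]
      _ = _ := by rw [Real.exp_add, mul_right_comm, h5, mul_comm]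
  have hbig : ∀ n, Real.exp (-(2 * R)) ≤ |E' n p.1 p.2| := by
    intro n
    simp only [hE', Matrix.of_apply]
    rw [abs_mul, abs_of_pos (Real.exp_pos _)]
    have h1 := abs_le.1 (hvr n p.1)
    have h2 := abs_le.1 (hvr n p.2)
    rw [← hσ, hqσ] at h1
    rw [← hτ, hqτ] at h2
    rw [← hσ, ← hτ]
    calc Real.exp (-(2 * R)) = Real.exp (T n + -(2 * R)) * c n := by
          rw [Real.exp_add, mul_right_comm, hexpT, one_mul]
      _ ≤ _ := by
          refine mul_le_mul_of_nonneg_right (Real.exp_le_exp.2 ?_) (abs_nonneg _)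
          linarith [h1.2, h2.1]
  -- boundedness
  obtain ⟨B, hB⟩ : ∃ B : ℝ, ∀ n i j, |E' n i j| ≤ B := by
    have hb : ∀ i j, ∃ B : ℝ, ∀ n, |E n i j| ≤ B := by
      intro i j
      obtain ⟨B, hB⟩ := (hent i j).abs.bddAbove_range
      exact ⟨B, fun n => hB ⟨n, rfl⟩⟩
    choose B hB using hb
    set B' : ℝ := ∑ i, ∑ j, |B i j| with hB'
    have hB2 : ∀ n i j, |E n i j| ≤ B' := by
      intro n i j
      refine ((hB i j n).trans (le_abs_self _)).trans ?_
      refine (Finset.single_le_sum (f := fun j => |B i j|) (fun j _ => abs_nonneg _)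
        (Finset.mem_univ j)).trans ?_
      exact Finset.single_le_sum (f := fun i => ∑ j, |B i j|)
        (fun i _ => Finset.sum_nonneg fun j _ => abs_nonneg _) (Finset.mem_univ i)
    have hB'0 : 0 ≤ B' := Finset.sum_nonneg fun i _ => Finset.sum_nonneg fun j _ => abs_nonneg _
    refine ⟨B' + Real.exp (2 * R), fun n i j => ?_⟩
    have hexp := Real.exp_pos (2 * R)
    by_cases hij : φ i = φ j
    · rw [hsame n i j hij]
      linarith [hB2 n i j]
    · by_cases hm : φ i = σ ∧ φ j = τ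
      · linarith [hmain n i j hm.1 hm.2]
      · have h1 := hoth n i j hij hm
        have h2 : Real.sqrt (c n) ≤ 1 := Real.sqrt_le_one.2 (hc1 n)
        nlinarith
  obtain ⟨L, -, ρ, hρ, hL⟩ := (isCompact_box (d := d) B).tendsto_subseq (x := E') hB
  have hLent : ∀ i j, Tendsto (fun n => E' (ρ n) i j) atTop (𝓝 (L i j)) := fun i j =>
    (continuous_apply_apply i j).tendsto L |>.comp hL
  have hL1 : ∀ i j, φ i = φ j → L i j = (1 : Matrix (Fin d) (Fin d) ℝ) i j := by
    intro i j hij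
    refine tendsto_nhds_unique (hLent i j) ?_
    simp only [hsame _ i j hij]
    exact (hent i j).comp hρ.tendsto_atTop
  have hL2 : ∀ i j, φ i ≠ φ j → ¬ (φ i = σ ∧ φ j = τ) → L i j = 0 := by
    intro i j hij hnot
    refine tendsto_nhds_unique (hLent i j) ?_
    have h2 : Tendsto (fun n => Real.exp (2 * R) * Real.sqrt (c (ρ n))) atTop (𝓝 0) := by
      have h3 := ((Real.continuous_sqrt.tendsto 0).comp (hclim.comp hρ.tendsto_atTop)).const_mul
        (Real.exp (2 * R))
      rwa [Real.sqrt_zero, mul_zero] at h3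
    exact squeeze_zero_norm (fun n => by
      rw [Real.norm_eq_abs]; exact hoth (ρ n) i j hij hnot) h2
  have hL3 : L p.1 p.2 ≠ 0 := by
    intro h0
    have h1 := (hLent p.1 p.2).abs
    rw [h0, abs_zero] at h1
    have h2 : Real.exp (-(2 * R)) ≤ 0 := ge_of_tendsto' h1 fun n => hbig (ρ n)
    exact absurd h2 (not_le.2 (Real.exp_pos _))
  refine ⟨σ, τ, L - 1, hστ, ?_, ?_, ?_⟩
  · intro h0
    have h1 := congrFun (congrFun h0 p.1) p.2
    have hne : p.1 ≠ p.2 := fun h => hστ (by rw [hσ, hτ, h])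
    rw [Matrix.sub_apply, Matrix.one_apply_ne hne, sub_zero, Matrix.zero_apply] at h1
    exact hL3 h1
  · intro i j hnot
    rw [Matrix.sub_apply]
    by_cases hij : φ i = φ j
    · rw [hL1 i j hij, sub_self]
    · have hne : i ≠ j := fun h => hij (by rw [h])
      rw [hL2 i j hij hnot, Matrix.one_apply_ne hne, sub_zero]
  · rw [add_sub_cancel]
    have h1 : Tendsto (fun n => E' (ρ n) * h₀) atTop (𝓝 (L * h₀)) := by
      have hcont : Continuous (fun m : Matrix (Fin d) (Fin d) ℝ => m * h₀) :=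
        continuous_id.matrix_mul continuous_const
      exact (hcont.tendsto _).comp hL
    exact hMc.mem_of_tendsto h1 (Eventually.of_forall fun n => hE'M (ρ n))

end Pool.Agent.V7H90.Iso
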