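import Mathlib
import Pool.Agent.V7H90.Iso.Exit

/-! # The isolation theorem -/

open Filter Topology Matrix NumberField NumberField.mixedEmbedding

set_option linter.unusedSectionVars false

namespace Pool.Agent.V7H90.Iso

open H715R2 Pool.Agent.Y327

variable {K : Type*} [Field K] [NumberField K] {d : ℕ}

/-- **All multiples of the surviving block.** -/
theorem scale {ι : K →+* Module.End ℚ (Fin d → ℚ)} {φ : Fin d → K →+* ℝ}
    (hk : 3 ≤ Module.finrank ℚ K)
    (hreal : ∀ τ : K →+* ℂ, ComplexEmbedding.IsReal τ)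
    {M : Set (Matrix (Fin d) (Fin d) ℝ)} (hMc : IsClosed M) (hMinv : InvB id M)
    {h₀ : Matrix (Fin d) (Fin d) ℝ} (hu : IsUnit h₀.det) (hφ : Act ι φ h₀)
    {σ τ : K →+* ℝ} (hστ : σ ≠ τ) {w : Matrix (Fin d) (Fin d) ℝ}
    (hw : ∀ i j, ¬ (φ i = σ ∧ φ j = τ) → w i j = 0) (hwM : (1 + w) * h₀ ∈ M)
    {s : ℝ} (hs : 0 < s) : (1 + s • w) * h₀ ∈ M := by
  classical
  obtain ⟨N, hN, hNe, hact⟩ := exists_even_pow ι
  choose γ hγ hγ2 using hact
  have hστc : cx σ ≠ cx τ := fun h => hστ (cx_inj h)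
  obtain ⟨τ₃, h3σ, h3τ⟩ : ∃ τ₃ : K →+* ℂ, τ₃ ≠ cx σ ∧ τ₃ ≠ cx τ := by
    by_contra hcon
    push Not at hcon
    have h1 : (Finset.univ : Finset (K →+* ℂ)) ⊆ {cx σ, cx τ} := by
      intro ρ _
      rw [Finset.mem_insert, Finset.mem_singleton]
      by_cases h : ρ = cx σ
      · exact Or.inl h
      · exact Or.inr (hcon ρ h)
    have h2 := Finset.card_le_card h1
    rw [Finset.card_univ, Embeddings.card, Finset.card_pair hστc] at h2
    omega
  have hdense := psi_dense hreal N hN hNe (cx τ) (cx σ) τ₃ hστc h3τ h3σ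
  set Z : Set ℝ := {t | (1 + Real.exp t • w) * h₀ ∈ M} with hZ
  have hZc : IsClosed Z := by
    refine hMc.preimage ?_
    exact (continuous_const.add (Real.continuous_exp.smul continuous_const)).matrix_mul
      continuous_const
  have hZr : ((psi N (cx τ) (cx σ)).range : Set ℝ) ⊆ Z := by
    rintro _ ⟨v', rfl⟩
    obtain ⟨v, hv⟩ : ∃ v : (𝓞 K)ˣ, v' = Additive.ofMul v := ⟨v'.toMul, rfl⟩
    rw [hv]
    show (1 + Real.exp (psi N (cx τ) (cx σ) (Additive.ofMul v)) • w) * h₀ ∈ M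
    rw [psi_apply]
    have h1 := act_mem hreal hNe hMinv hu hφ (hγ v) (hγ2 v) hwM
    have h2 : (Matrix.of fun i j => Real.exp (lr N (φ j) v - lr N (φ i) v) *
        (1 + w) i j) = 1 + Real.exp (lg N (cx τ) v - lg N (cx σ) v) • w := by
      ext i j
      rw [Matrix.of_apply, Matrix.add_apply, Matrix.add_apply, Matrix.smul_apply, smul_eq_mul,
        mul_add]
      congr 1
      · by_cases hij : i = j
        · subst hij
          rw [sub_self, Real.exp_zero, one_mul]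
        · rw [Matrix.one_apply_ne hij, mul_zero]
      · by_cases hm : φ i = σ ∧ φ j = τ
        · rw [hm.1, hm.2]
          rfl
        · rw [hw i j hm, mul_zero, mul_zero]
    rw [h2] at h1
    exact h1
  have h1 : Real.log s ∈ Z := by
    have h2 := closure_minimal hZr hZc
    rw [hdense.closure_eq] at h2
    exact h2 (Set.mem_univ _)
  have h2 : (1 + Real.exp (Real.log s) • w) * h₀ ∈ M := h1
  rwa [Real.exp_log hs] at h2

/-- **No surviving block.** -/
theorem no_block {φ : Fin d → K →+* ℝ} {ν : ℝ} (hν : 0 < ν)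
    {M : Set (Matrix (Fin d) (Fin d) ℝ)} (hMnu : ∀ h ∈ M, HasNu h ν)
    {h₀ : Matrix (Fin d) (Fin d) ℝ} (hu : IsUnit h₀.det)
    {σ τ : K →+* ℝ} (hστ : σ ≠ τ) {w : Matrix (Fin d) (Fin d) ℝ} (hw0 : w ≠ 0)
    (hw : ∀ i j, ¬ (φ i = σ ∧ φ j = τ) → w i j = 0)
    (hM : ∀ s : ℝ, 0 < s → (1 + s • w) * h₀ ∈ M) : False := by
  obtain ⟨i, hi⟩ : ∃ i, w i ≠ 0 := by
    by_contra hcon
    push Not at hcon
    exact hw0 (funext hcon)
  have hii : w i i = 0 := hw i i (fun h => hστ (h.1.symm.trans h.2))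
  have hrow : ∀ s : ℝ, ((1 + s • w) * h₀) i = h₀ i + s • (w * h₀) i := by
    intro s
    funext j
    rw [Matrix.add_mul, Matrix.one_mul, Matrix.smul_mul]
    rfl
  by_cases hns : ∀ y : Fin d → ℝ, ¬ (h₀ i ⬝ᵥ y < 0 ∧ 0 < (w * h₀) i ⬝ᵥ y)
  · -- the rows are proportional
    obtain ⟨c, hc⟩ := parallel_of_no_sign (u := h₀ i) (v := (w * h₀) i) (by
      intro h0
      exact isUnit_iff_ne_zero.1 hu (Matrix.det_eq_zero_of_row_eq_zero i fun j => congrFun h0 j)) hns
    have h1 : w i = c • (1 : Matrix (Fin d) (Fin d) ℝ) i := by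
      have h2 : (w i - c • (1 : Matrix (Fin d) (Fin d) ℝ) i) ᵥ* h₀ = 0 := by
        rw [Matrix.sub_vecMul, Matrix.smul_vecMul]
        have h3 : w i ᵥ* h₀ = (w * h₀) i := rfl
        have h4 : (1 : Matrix (Fin d) (Fin d) ℝ) i ᵥ* h₀ =
            ((1 : Matrix (Fin d) (Fin d) ℝ) * h₀) i := rfl
        rw [h3, h4, Matrix.one_mul, hc, sub_self]
      have h3 := congrArg (fun y => y ᵥ* h₀⁻¹) h2
      simp only [Matrix.vecMul_vecMul, Matrix.zero_vecMul] at h3
      rw [Matrix.mul_nonsing_inv _ hu, Matrix.vecMul_one] at h3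
      exact sub_eq_zero.1 h3
    have h2 := congrFun h1 i
    rw [hii, Pi.smul_apply, Matrix.one_apply_eq, smul_eq_mul, mul_one] at h2
    rw [← h2, zero_smul] at h1
    exact hi h1
  · push Not at hns
    obtain ⟨y, hy1, hy2⟩ := hns
    set U : Set (Fin d → ℝ) := {y | h₀ i ⬝ᵥ y < 0 ∧ 0 < (w * h₀) i ⬝ᵥ y} with hU
    have hUo : IsOpen U := by
      have h1 : U = {y | h₀ i ⬝ᵥ y < 0} ∩ {y | 0 < (w * h₀) i ⬝ᵥ y} := rfl
      rw [h1]
      exact (isOpen_lt (continuous_const.dotProduct continuous_id) continuous_const).inter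
        (isOpen_lt continuous_const (continuous_const.dotProduct continuous_id))
    obtain ⟨m, k, hk, hmk⟩ := exists_int_point U hUo y ⟨hy1, hy2⟩
    have hk' : (0 : ℝ) < k := by exact_mod_cast hk
    have h1 : iR m = (k : ℝ) • (fun l => (m l : ℝ) / k) := by
      funext l
      simp only [iR, Pi.smul_apply, smul_eq_mul]
      field_simp
    have h2 : h₀ i ⬝ᵥ iR m < 0 := by
      rw [h1, dotProduct_smul, smul_eq_mul]
      exact mul_neg_of_pos_of_neg hk' hmk.1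
    have h3 : 0 < (w * h₀) i ⬝ᵥ iR m := by
      rw [h1, dotProduct_smul, smul_eq_mul]
      exact mul_pos hk' hmk.2
    have hm0 : m ≠ 0 := by
      intro h0
      rw [h0] at h2
      have : iR (0 : Fin d → ℤ) = 0 := by funext l; simp [iR]
      rw [this, dotProduct_zero] at h2
      exact lt_irrefl _ h2
    set s : ℝ := -(h₀ i ⬝ᵥ iR m) / ((w * h₀) i ⬝ᵥ iR m) with hs
    have hs0 : 0 < s := div_pos (neg_pos.2 h2) h3
    have h4 := hMnu _ (hM s hs0) m hm0
    have h5 : (((1 + s • w) * h₀) *ᵥ iR m) i = 0 := by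
      show ((1 + s • w) * h₀) i ⬝ᵥ iR m = 0
      rw [hrow, add_dotProduct, smul_dotProduct, smul_eq_mul, hs, div_mul_cancel₀ _ h3.ne']
      ring
    rw [FF_eq, Finset.prod_eq_zero (Finset.mem_univ i) h5, abs_zero] at h4
    exact absurd h4 (not_le.2 hν)

/-- **The isolation theorem.** -/
theorem isolated (hd : 0 < d) (hk : 3 ≤ Module.finrank ℚ K)
    {ι : K →+* Module.End ℚ (Fin d → ℚ)} {φ : Fin d → K →+* ℝ} {ν : ℝ} (hν : 0 < ν)
    {M : Set (Matrix (Fin d) (Fin d) ℝ)} (hMnu : ∀ h ∈ M, HasNu h ν)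
    (hMc : IsClosed M) (hMinv : InvB id M)
    {h₀ : Matrix (Fin d) (Fin d) ℝ} (hu : IsUnit h₀.det) (hφ : Act ι φ h₀) :
    ∀ᶠ h in 𝓝[M] h₀, Act ι φ h := by
  have hreal := all_real hd hu hφ
  have h1 : ∀ᶠ h in 𝓝[M] h₀, ∀ i j, φ i ≠ φ j → (h * h₀⁻¹) i j = 0 := by
    by_contra hcon
    rw [Filter.not_eventually] at hcon
    push Not at hcon
    obtain ⟨σ, τ, w, hστ, hw0, hw, hwM⟩ := exists_exit hreal hMc hMinv hu hφ hcon
    exact no_block hν hMnu hu hστ hw0 hw fun s hs =>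
      scale hk hreal hMc hMinv hu hφ hστ hw hwM hs
  filter_upwards [h1] with h h2 x
  have h3 : (h * h₀⁻¹) * diagonal (fun i => φ i x) = diagonal (fun i => φ i x) * (h * h₀⁻¹) := by
    ext i j
    rw [Matrix.mul_diagonal, Matrix.diagonal_mul]
    by_cases hij : φ i = φ j
    · rw [hij, mul_comm]
    · rw [h2 i j hij, zero_mul, mul_zero]
  calc h * kap (ι x) = (h * h₀⁻¹) * (h₀ * kap (ι x)) := by
        rw [Matrix.mul_assoc, ← Matrix.mul_assoc h₀⁻¹, Matrix.nonsing_inv_mul _ hu, Matrix.one_mul]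
    _ = ((h * h₀⁻¹) * diagonal (fun i => φ i x)) * h₀ := by rw [hφ]; simp only [Matrix.mul_assoc]
    _ = diagonal (fun i => φ i x) * ((h * h₀⁻¹) * h₀) := by rw [h3, Matrix.mul_assoc]
    _ = _ := by rw [Matrix.mul_assoc h, Matrix.nonsing_inv_mul _ hu, Matrix.mul_one]

end Pool.Agent.V7H90.Iso
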