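import Mathlib
import Pool.Agent.Y327.Step
import Pool.Agent.V7H90.Iso.Main

/-! # Some rows span an eigenspace of a number field -/

open Filter Topology Matrix NumberField NumberField.mixedEmbedding

set_option linter.unusedSectionVars false

namespace Pool.Agent.V7H90.Iso

open H715R2 Pool.Agent.Y327

variable {K : Type*} [Field K] [NumberField K] {d : ℕ}

lemma cx_real (φ : K →+* ℝ) : ComplexEmbedding.IsReal (cx φ) := by
  rw [ComplexEmbedding.isReal_iff]
  ext z
  simp [ComplexEmbedding.conjugate, cx]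

/-- the place of a real embedding -/
noncomputable def pl (φ : K →+* ℝ) : {w : InfinitePlace K // w.IsReal} :=
  ⟨InfinitePlace.mk (cx φ), InfinitePlace.isReal_mk_iff.2 (cx_real φ)⟩

lemma emb_pl (φ : K →+* ℝ) (x : K) : (mixedEmbedding K x).1 (pl φ) = φ x := by
  rw [mixedEmbedding_apply_isReal]
  have h1 : (((InfinitePlace.embedding_of_isReal (pl φ).2 x : ℝ) : ℂ)) = ((φ x : ℝ) : ℂ) := by
    rw [InfinitePlace.embedding_of_isReal_apply]
    have h2 : (pl φ).1.embedding = cx φ := InfinitePlace.embedding_mk_eq_of_isReal (cx_real φ)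
    rw [h2]
    rfl
  exact_mod_cast h1

/-- an eigenrow of the field is an eigenrow of the real algebra -/
lemma row_jhom {ι : K →+* Module.End ℚ (Fin d → ℚ)} {φ : K →+* ℝ} {r : Fin d → ℝ}
    (hr : ∀ x, r ᵥ* kap (ι x) = φ x • r) (c : mixedSpace K) :
    r ᵥ* jhom ι c = c.1 (pl φ) • r := by
  let L1 : mixedSpace K →ₗ[ℝ] (Fin d → ℝ) :=
    { toFun := fun c => r ᵥ* jhom ι c - c.1 (pl φ) • r
      map_add' := by
        intro c c'
        rw [map_add, Matrix.vecMul_add]
        show _ - (c.1 (pl φ) + c'.1 (pl φ)) • r = _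
        rw [add_smul]
        abel
      map_smul' := by
        intro t c
        rw [map_smul, Matrix.vecMul_smul]
        show _ - (t * c.1 (pl φ)) • r = _
        rw [RingHom.id_apply, smul_sub, smul_smul] }
  have h1 := jhom_zero_of L1 (fun x => by
    show r ᵥ* jhom ι (mixedEmbedding K x) - (mixedEmbedding K x).1 (pl φ) • r = 0
    rw [jhom_emb, hr, emb_pl, sub_self]) c
  exact sub_eq_zero.1 h1

/-- **The contraction of the complement.** -/
theorem exists_contract (hd : 0 < d) {ι : K →+* Module.End ℚ (Fin d → ℚ)} {V ν : ℝ}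
    {M : Set (Matrix (Fin d) (Fin d) ℝ)}
    (hMc : IsClosed M) (hMinv : InvB id M)
    {h : Matrix (Fin d) (Fin d) ℝ} (hh : h ∈ M) (φ : K →+* ℝ) (S : Finset (Fin d))
    (hS : S.card * Module.finrank ℚ K = d)
    (hrow : ∀ i ∈ S, ∀ x, h i ᵥ* kap (ι x) = φ x • h i) :
    ∃ (h' : Matrix (Fin d) (Fin d) ℝ) (a : ℕ → Fin d → ℝ) (v : ℕ → K)
      (γ : ℕ → Matrix (Fin d) (Fin d) ℤ), h' ∈ M ∧
      (∃ e : Fin d → ℝ, h' * jhom ι (ech (pl φ)) = diagonal e * h') ∧
      (∀ n, BB id (a n)) ∧ (∀ n, IsUnit (γ n).det) ∧ (∀ n, kap (ι (v n)) = zR (γ n)) ∧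
      Tendsto (fun n => diagonal (a n) * h * zR (γ n)) atTop (𝓝 h') := by
  classical
  obtain ⟨N, hN, hact⟩ := exists_pow_int ι
  obtain ⟨v, t, ht, hlim⟩ := exists_near_one (pl φ) hN
  set E : Matrix (Fin d) (Fin d) ℝ := jhom ι (ech (pl φ)) with hE
  set P : ℕ → mixedSpace K := fun n =>
    zc (pl φ) (t n) * mixedEmbedding K ((((v n) ^ N : (𝓞 K)ˣ) : 𝓞 K) : K) with hP
  choose γ hγ hγ2 using fun n => hact (v n)
  set k : ℝ := (Module.finrank ℚ K : ℝ) with hk
  set a : ℕ → Fin d → ℝ := fun n i => if i ∈ S then Real.exp ((k - 1) * t n) else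
    Real.exp (-(t n)) with ha
  have haBB : ∀ n, BB id (a n) := by
    intro n
    refine ⟨fun i => ?_, ?_, fun i j hij => by rw [show i = j from hij]⟩
    · simp only [ha]
      split_ifs <;> exact Real.exp_pos _
    · have h1 : ∀ i, a n i = Real.exp ((if i ∈ S then k * t n else 0) - t n) := by
        intro i
        simp only [ha]
        split_ifs
        · congr 1; ring
        · congr 1; ring
      simp only [h1]
      rw [← Real.exp_sum, Finset.sum_sub_distrib, Finset.sum_ite_mem, Finset.univ_inter,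
        Finset.sum_const, Finset.sum_const, Finset.card_univ, Fintype.card_fin, nsmul_eq_mul,
        nsmul_eq_mul, Real.exp_eq_one_iff]
      have h2 : (S.card : ℝ) * k = d := by
        rw [hk]
        exact_mod_cast hS
      rw [← h2]
      ring
  set h' : Matrix (Fin d) (Fin d) ℝ := fun i => if i ∈ S then h i else (h * (1 - E)) i with hh'
  have hEE : E * E = E := by rw [hE, ← map_mul, ech_mul_self]
  have hrowE : ∀ i ∈ S, h i ᵥ* E = h i := by
    intro i hi
    rw [hE, row_jhom (hrow i hi)]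
    have h1 : (ech (pl φ)).1 (pl φ) = 1 := by
      rw [ech_def]
      simp
    rw [h1, one_smul]
  have hconv : ∀ n, diagonal (a n) * h * zR (γ n) =
      (Matrix.of fun i => if i ∈ S then h i else
        Real.exp (-(k * t n)) • (h * E) i + (h * (1 - E)) i) * jhom ι (P n) := by
    intro n
    have h1 : zR (γ n) = jhom ι (zc (pl φ) (-(t n))) * jhom ι (P n) := by
      rw [← hγ2 n, ← jhom_emb, ← map_mul]
      congr 1
      simp only [hP]
      rw [← mul_assoc, ← zc_add, neg_add_cancel, zc_zero, one_mul]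
    rw [h1, ← Matrix.mul_assoc]
    congr 1
    have h2 : jhom ι (zc (pl φ) (-(t n))) =
        Real.exp (-((k - 1) * t n)) • E + Real.exp (t n) • (1 - E) := by
      rw [zc, map_add, map_smul, map_smul, map_sub, map_one, ← hE, neg_neg]
      congr 3
      ring
    rw [h2]
    ext i j
    have h3 : (diagonal (a n) * h * (Real.exp (-((k - 1) * t n)) • E +
        Real.exp (t n) • (1 - E))) i j = a n i * (Real.exp (-((k - 1) * t n)) * (h * E) i j +
        Real.exp (t n) * (h * (1 - E)) i j) := by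
      rw [Matrix.mul_assoc, diagonal_mul, Matrix.mul_add, Matrix.mul_smul, Matrix.mul_smul,
        Matrix.add_apply, Matrix.smul_apply, Matrix.smul_apply, smul_eq_mul, smul_eq_mul]
    rw [h3, Matrix.of_apply]
    by_cases hi : i ∈ S
    · rw [if_pos hi]
      have h4 : (h * E) i j = h i j := congrFun (hrowE i hi) j
      have h5 : (h * (1 - E)) i j = 0 := by
        rw [Matrix.mul_sub, Matrix.mul_one, Matrix.sub_apply, h4, sub_self]
      rw [h4, h5, mul_zero, add_zero]
      simp only [ha, if_pos hi]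
      rw [← mul_assoc, ← Real.exp_add, add_neg_cancel, Real.exp_zero, one_mul]
    · rw [if_neg hi]
      simp only [ha, if_neg hi, Pi.add_apply, Pi.smul_apply, smul_eq_mul]
      rw [mul_add, ← mul_assoc, ← mul_assoc, ← Real.exp_add, ← Real.exp_add, neg_add_cancel,
        Real.exp_zero, one_mul]
      congr 3
      ring
  have hlim2 : Tendsto (fun n => diagonal (a n) * h * zR (γ n)) atTop (𝓝 h') := by
    have h1 : Tendsto (fun n => (Matrix.of fun i => if i ∈ S then h i else
        Real.exp (-(k * t n)) • (h * E) i + (h * (1 - E)) i)) atTop (𝓝 h') := by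
      refine tendsto_pi_nhds.2 fun i => ?_
      by_cases hi : i ∈ S
      · have h2 : h' i = h i := by simp only [hh', if_pos hi]
        rw [h2]
        refine Tendsto.congr (f₁ := fun _ : ℕ => h i) (fun n => ?_) tendsto_const_nhds
        show h i = (if i ∈ S then h i else
          Real.exp (-(k * t n)) • (h * E) i + (h * (1 - E)) i)
        rw [if_pos hi]
      · have hk0 : 0 < k := by
          rw [hk]
          exact_mod_cast Module.finrank_pos
        have h0 : h' i = (h * (1 - E)) i := by simp only [hh', if_neg hi]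
        rw [h0]
        have h2 : Tendsto (fun n => Real.exp (-(k * t n))) atTop (𝓝 0) :=
          Real.tendsto_exp_neg_atTop_nhds_zero.comp (ht.const_mul_atTop hk0)
        have h3 := (h2.smul_const ((h * E) i)).add_const ((h * (1 - E)) i)
        rw [zero_smul, zero_add] at h3
        refine h3.congr fun n => ?_
        show _ = (if i ∈ S then h i else
          Real.exp (-(k * t n)) • (h * E) i + (h * (1 - E)) i)
        rw [if_neg hi]
    have h2 : Tendsto (fun n => jhom ι (P n)) atTop (𝓝 1) := by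
      have h3 := ((jhom_continuous ι).tendsto 1).comp hlim
      rwa [map_one] at h3
    have h3 := h1.mul h2
    rw [Matrix.mul_one] at h3
    refine h3.congr fun n => ?_
    rw [hconv]
  refine ⟨h', a, fun n => ((((v n) ^ N : (𝓞 K)ˣ) : 𝓞 K) : K), γ, ?_, ?_, haBB, hγ, hγ2, hlim2⟩
  · exact hMc.mem_of_tendsto hlim2 (Eventually.of_forall fun n => hMinv _ hh _ _ (haBB n) (hγ n))
  · refine ⟨fun i => if i ∈ S then 1 else 0, ?_⟩
    ext i j
    rw [diagonal_mul]
    by_cases hi : i ∈ S
    · rw [if_pos hi, one_mul]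
      have h1 : (h' * E) i j = (h i ᵥ* E) j := by
        have h2 : (h' * E) i = h' i ᵥ* E := rfl
        rw [h2]
        simp only [hh', if_pos hi]
      rw [h1, hrowE i hi]
      simp only [hh', if_pos hi]
    · rw [if_neg hi, zero_mul]
      have h1 : (h' * E) i j = ((h * (1 - E)) * E) i j := by
        have h2 : (h' * E) i = h' i ᵥ* E := rfl
        have h3 : ((h * (1 - E)) * E) i = (h * (1 - E)) i ᵥ* E := rfl
        rw [h2, h3]
        simp only [hh', if_neg hi]
      rw [h1, Matrix.mul_assoc, Matrix.sub_mul, Matrix.one_mul, hEE, sub_self, Matrix.mul_zero]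
      rfl

/-- a translate by a unit which is diagonalised comes from a diagonalised matrix -/
lemma act_back {ι : K →+* Module.End ℚ (Fin d → ℚ)} {ψ : Fin d → K →+* ℝ}
    {h : Matrix (Fin d) (Fin d) ℝ} {a : ℕ → Fin d → ℝ} {v : ℕ → K}
    {γ : ℕ → Matrix (Fin d) (Fin d) ℤ} (hγ2 : ∀ n, kap (ι (v n)) = zR (γ n))
    (ha : ∀ n, BB id (a n)) (hγ : ∀ n, IsUnit (γ n).det) {n : ℕ}
    (hn : Act ι ψ (diagonal (a n) * h * zR (γ n))) : Act ι ψ h := by
  intro x
  have h3 := hn x
  have h4 : zR (γ n) * kap (ι x) = kap (ι x) * zR (γ n) := by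
    rw [← hγ2, ← map_mul, ← map_mul, ← map_mul, ← map_mul, mul_comm]
  have h5 : (diagonal fun i => (a n i)⁻¹ : Matrix (Fin d) (Fin d) ℝ) * diagonal (a n) = 1 := by
    rw [diagonal_mul_diagonal]
    have : (fun i => (a n i)⁻¹ * a n i) = fun _ => (1 : ℝ) := by
      funext i
      exact inv_mul_cancel₀ ((ha n).1 i).ne'
    rw [this, diagonal_one]
  have h6 : zR (γ n) * zR (γ n)⁻¹ = 1 := zR_inv (hγ n)
  have hcomm : (diagonal (fun i => ψ i x) : Matrix (Fin d) (Fin d) ℝ) * diagonal (a n) =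
      diagonal (a n) * diagonal (fun i => ψ i x) := by
    rw [diagonal_mul_diagonal, diagonal_mul_diagonal]
    congr 1
    funext i
    rw [mul_comm]
  calc h * kap (ι x) = ((diagonal fun i => (a n i)⁻¹) * diagonal (a n)) * h * kap (ι x) *
        (zR (γ n) * zR (γ n)⁻¹) := by rw [h5, h6, Matrix.one_mul, Matrix.mul_one]
    _ = (diagonal fun i => (a n i)⁻¹) * (diagonal (a n) * h * (kap (ι x) * zR (γ n))) *
        zR (γ n)⁻¹ := by simp only [Matrix.mul_assoc]
    _ = (diagonal fun i => (a n i)⁻¹) * (diagonal (a n) * h * zR (γ n) * kap (ι x)) *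
        zR (γ n)⁻¹ := by rw [← h4]; simp only [Matrix.mul_assoc]
    _ = (diagonal fun i => (a n i)⁻¹) * (diagonal (fun i => ψ i x) *
        (diagonal (a n) * h * zR (γ n))) * zR (γ n)⁻¹ := by rw [h3]
    _ = (diagonal fun i => (a n i)⁻¹) * (diagonal (fun i => ψ i x) * diagonal (a n)) * h *
        (zR (γ n) * zR (γ n)⁻¹) := by simp only [Matrix.mul_assoc]
    _ = (diagonal fun i => (a n i)⁻¹) * (diagonal (a n) * diagonal (fun i => ψ i x)) * h := by
        rw [h6, Matrix.mul_one, hcomm]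
    _ = ((diagonal fun i => (a n i)⁻¹) * diagonal (a n)) * diagonal (fun i => ψ i x) * h := by
        simp only [Matrix.mul_assoc]
    _ = _ := by rw [h5, Matrix.one_mul]

/-- **Enough rows in one eigenspace.** -/
theorem act_of_rows (hd : 0 < d) (hk : 3 ≤ Module.finrank ℚ K)
    (ι : K →+* Module.End ℚ (Fin d → ℚ)) {V ν : ℝ} (hV : 0 < V) (hν : 0 < ν)
    {M : Set (Matrix (Fin d) (Fin d) ℝ)} (hMdet : ∀ h ∈ M, |h.det| = V)
    (hMnu : ∀ h ∈ M, HasNu h ν) (hMc : IsClosed M) (hMinv : InvB id M)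
    {h : Matrix (Fin d) (Fin d) ℝ} (hh : h ∈ M) (φ : K →+* ℝ) (S : Finset (Fin d))
    (hS : S.card * Module.finrank ℚ K = d)
    (hrow : ∀ i ∈ S, ∀ x, h i ᵥ* kap (ι x) = φ x • h i) :
    ∃ ψ : Fin d → K →+* ℝ, Act ι ψ h := by
  have hu : ∀ h ∈ M, IsUnit h.det := by
    intro h hh
    rw [isUnit_iff_ne_zero]
    intro h0
    have := hMdet h hh
    rw [h0, abs_zero] at this
    exact hV.ne this
  obtain ⟨h', a, v, γ, hh', he, ha, hγ, hγ2, hlim⟩ :=
    exists_contract (V := V) (ν := ν) hd hMc hMinv hh φ S hS hrow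
  obtain ⟨ψ, hψ⟩ := exists_emb ι (hu h' hh')
    (rigid hd ι hV hν hMdet hMnu hMc hMinv hh' (pl φ) he)
  refine ⟨ψ, ?_⟩
  have h1 := isolated hd hk hν hMnu hMc hMinv (hu h' hh') hψ
  have h2 : Tendsto (fun n => diagonal (a n) * h * zR (γ n)) atTop (𝓝[M] h') :=
    tendsto_nhdsWithin_iff.2 ⟨hlim, Eventually.of_forall fun n => hMinv _ hh _ _ (ha n) (hγ n)⟩
  obtain ⟨n, hn⟩ := (h2.eventually h1).exists
  exact act_back hγ2 ha hγ hn

end Pool.Agent.V7H90.Iso
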