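import Mathlib
import Pool.Agent.V7H90.Iso.Rows

/-! # Subspaces spanned by vectors over a number field -/

open Filter Topology Matrix NumberField NumberField.mixedEmbedding

set_option linter.unusedSectionVars false

namespace Pool.Agent.V7H90.Iso

open H715R2 Pool.Agent.Y327 RatSpan

variable {K : Type*} [Field K] [NumberField K] {d s : ℕ}

/-- the rational linear map given by vectors over the field -/
noncomputable def bet (B : Fin s → Fin d → K) : (Fin d → ℚ) →ₗ[ℚ] (Fin s → K) :=
  LinearMap.pi fun l => Fintype.linearCombination ℚ (B l)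

lemma bet_apply (B : Fin s → Fin d → K) (x : Fin d → ℚ) (l : Fin s) :
    bet B x l = ∑ j, x j • B l j := by
  simp [bet, Fintype.linearCombination_apply]

lemma bet_single (B : Fin s → Fin d → K) (j : Fin d) (l : Fin s) :
    bet B (Pi.single j 1) l = B l j := by
  rw [bet_apply, Finset.sum_eq_single j]
  · simp
  · intro b _ hb
    rw [Pi.single_eq_of_ne hb, zero_smul]
  · intro h
    exact absurd (Finset.mem_univ _) h

/-- the action of the field on the rational space -/
noncomputable def iotaB (e : (Fin d → ℚ) ≃ₗ[ℚ] (Fin s → K)) :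
    K →+* Module.End ℚ (Fin d → ℚ) where
  toFun x := e.symm.toLinearMap ∘ₗ (DistribSMul.toLinearMap ℚ (Fin s → K) x) ∘ₗ e.toLinearMap
  map_one' := by
    ext v
    simp
  map_mul' x y := by
    refine LinearMap.ext fun v => ?_
    simp [mul_smul]
  map_zero' := by
    refine LinearMap.ext fun v => ?_
    simp
  map_add' x y := by
    refine LinearMap.ext fun v => ?_
    simp [add_smul]

lemma iotaB_apply (e : (Fin d → ℚ) ≃ₗ[ℚ] (Fin s → K)) (x : K) (v : Fin d → ℚ) :
    iotaB e x v = e.symm (x • e v) := rfl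

/-- a real row as a functional on the space over the field -/
noncomputable def fnl (e : (Fin d → ℚ) ≃ₗ[ℚ] (Fin s → K)) (r : Fin d → ℝ) :
    (Fin s → K) →ₗ[ℚ] ℝ where
  toFun y := ∑ j, r j * ((e.symm y j : ℚ) : ℝ)
  map_add' y y' := by
    rw [map_add, ← Finset.sum_add_distrib]
    refine Finset.sum_congr rfl fun j _ => ?_
    rw [Pi.add_apply]
    push_cast
    ring
  map_smul' c y := by
    rw [map_smul, RingHom.id_apply, Finset.smul_sum]
    refine Finset.sum_congr rfl fun j _ => ?_
    rw [Pi.smul_apply, smul_eq_mul, Rat.smul_def]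
    push_cast
    ring

lemma fnl_apply (e : (Fin d → ℚ) ≃ₗ[ℚ] (Fin s → K)) (r : Fin d → ℝ) (y : Fin s → K) :
    fnl e r y = ∑ j, r j * ((e.symm y j : ℚ) : ℝ) := rfl

lemma vecMul_kap (r : Fin d → ℝ) (f : Module.End ℚ (Fin d → ℚ)) (x : Fin d → ℚ) :
    ∑ j, (r ᵥ* kap f) j * ((x j : ℚ) : ℝ) = ∑ j, r j * ((f x j : ℚ) : ℝ) := by
  have h1 : (r ᵥ* kap f) ⬝ᵥ cR x = r ⬝ᵥ (kap f *ᵥ cR x) := (Matrix.dotProduct_mulVec _ _ _).symm
  rw [kap_mulVec] at h1
  exact h1

/-- **Eigenrows are real combinations of the conjugate vectors.** -/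
theorem eig_iff (e : (Fin d → ℚ) ≃ₗ[ℚ] (Fin s → K)) (σ : K →+* ℝ) (r : Fin d → ℝ) :
    (∀ x, r ᵥ* kap (iotaB e x) = σ x • r) ↔
      ∃ c : Fin s → ℝ, ∀ j, r j = ∑ l, c l * σ (e (Pi.single j 1) l) := by
  classical
  constructor
  · intro h
    have hf : ∀ (x : K) (y : Fin s → K), fnl e r (x • y) = σ x * fnl e r y := by
      intro x y
      rw [fnl_apply, fnl_apply]
      have h1 := vecMul_kap r (iotaB e x) (e.symm y)
      rw [iotaB_apply, LinearEquiv.apply_symm_apply] at h1
      rw [← h1, h x, Finset.mul_sum]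
      refine Finset.sum_congr rfl fun j _ => ?_
      rw [Pi.smul_apply, smul_eq_mul]
      ring
    refine ⟨fun l => fnl e r (Pi.single l 1), fun j => ?_⟩
    have h1 : r j = fnl e r (e (Pi.single j 1)) := by
      rw [fnl_apply, LinearEquiv.symm_apply_apply, Finset.sum_eq_single j]
      · simp
      · intro b _ hb
        rw [Pi.single_eq_of_ne hb, Rat.cast_zero, mul_zero]
      · intro h
        exact absurd (Finset.mem_univ _) h
    have h2 : e (Pi.single j 1) = ∑ l, (e (Pi.single j 1) l) • (Pi.single l 1 : Fin s → K) := by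
      funext l
      rw [Finset.sum_apply, Finset.sum_eq_single l]
      · simp
      · intro b _ hb
        rw [Pi.smul_apply, Pi.single_eq_of_ne hb.symm, smul_zero]
      · intro h
        exact absurd (Finset.mem_univ _) h
    rw [h1]
    conv_lhs => rw [h2]
    rw [map_sum]
    refine Finset.sum_congr rfl fun l _ => ?_
    rw [hf, mul_comm]
  · rintro ⟨c, hc⟩ x
    have hlin : ∀ v : Fin d → ℚ, ∑ j, r j * ((v j : ℚ) : ℝ) = ∑ l, c l * σ (e v l) := by
      intro v
      have h1 : e v = ∑ j, v j • e (Pi.single j 1) := by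
        conv_lhs => rw [show v = ∑ j, v j • (Pi.single j (1 : ℚ) : Fin d → ℚ) by
          funext t; simp [Finset.sum_apply, Pi.single_apply]]
        rw [map_sum]
        exact Finset.sum_congr rfl fun j _ => by rw [map_smul]
      have h2 : ∀ l, σ (e v l) = ∑ j, ((v j : ℚ) : ℝ) * σ (e (Pi.single j 1) l) := by
        intro l
        rw [h1, Finset.sum_apply, map_sum]
        refine Finset.sum_congr rfl fun j _ => ?_
        rw [Pi.smul_apply, Algebra.smul_def, map_mul]
        congr 1
        exact map_ratCast (σ.comp (algebraMap ℚ K)) (v j) |>.symm ▸ by simp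
      simp only [hc, h2, Finset.mul_sum, Finset.sum_mul]
      rw [Finset.sum_comm]
      refine Finset.sum_congr rfl fun l _ => Finset.sum_congr rfl fun j _ => ?_
      ring
    funext j
    have h1 := vecMul_kap r (iotaB e x) (Pi.single j 1)
    have h2 : ∑ b, (r ᵥ* kap (iotaB e x)) b * (((Pi.single j 1 : Fin d → ℚ) b : ℚ) : ℝ) =
        (r ᵥ* kap (iotaB e x)) j := by
      rw [Finset.sum_eq_single j]
      · simp
      · intro b _ hb
        rw [Pi.single_eq_of_ne hb, Rat.cast_zero, mul_zero]
      · intro h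
        exact absurd (Finset.mem_univ _) h
    rw [h2, hlin, iotaB_apply, LinearEquiv.apply_symm_apply] at h1
    rw [h1, Pi.smul_apply, smul_eq_mul, hc, Finset.mul_sum]
    refine Finset.sum_congr rfl fun l _ => ?_
    rw [Pi.smul_apply, smul_eq_mul, map_mul]
    ring

end Pool.Agent.V7H90.Iso
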