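import Mathlib
import Pool.Agent.V7H90.Iso.Over

/-! # Orbits with signs and the theorem on rows over a number field -/

open Filter Topology Matrix NumberField NumberField.mixedEmbedding

set_option linter.unusedSectionVars false

namespace Pool.Agent.V7H90.Iso

open H715R2 Pool.Agent.Y327 RatSpan

variable {d : ℕ}

/-- the orbit under all diagonal matrices of product one in absolute value -/
def OrbS (g : Matrix (Fin d) (Fin d) ℝ) : Set (Matrix (Fin d) (Fin d) ℝ) :=
  {h | ∃ (a : Fin d → ℝ) (γ : Matrix (Fin d) (Fin d) ℤ), |∏ i, a i| = 1 ∧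
    IsUnit γ.det ∧ h = diagonal a * g * zR γ}

/-- arbitrarily small values at nonzero integer points -/
def Sml (g : Matrix (Fin d) (Fin d) ℝ) : Prop :=
  ∀ ε : ℝ, 0 < ε → ∃ x : Fin d → ℤ, x ≠ 0 ∧ |FF g (iR x)| < ε

lemma hasNu_of_not_sml {g : Matrix (Fin d) (Fin d) ℝ} (h : ¬ Sml g) : ∃ ν : ℝ, 0 < ν ∧ HasNu g ν := by
  unfold Sml at h
  push Not at h
  obtain ⟨ε, hε, h⟩ := h
  exact ⟨ε, hε, fun m hm => h m hm⟩

lemma unimod_mulVec_ne {γ : Matrix (Fin d) (Fin d) ℤ} (hγ : IsUnit γ.det) {x : Fin d → ℤ}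
    (hx : x ≠ 0) : γ *ᵥ x ≠ 0 := by
  intro h0
  apply hx
  have h1 : γ⁻¹ *ᵥ (γ *ᵥ x) = x := by
    rw [Matrix.mulVec_mulVec, Matrix.nonsing_inv_mul _ hγ, Matrix.one_mulVec]
  rw [← h1, h0, Matrix.mulVec_zero]

lemma abs_FF_orbS {a : Fin d → ℝ} (ha : |∏ i, a i| = 1) (g : Matrix (Fin d) (Fin d) ℝ)
    (γ : Matrix (Fin d) (Fin d) ℤ) (m : Fin d → ℤ) :
    |FF (diagonal a * g * zR γ) (iR m)| = |FF g (iR (γ *ᵥ m))| := by
  rw [Matrix.mul_assoc, FF_diag_mul, abs_mul, ha, one_mul, FF_mul, zR_mulVec_iR]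

lemma orbS_self (g : Matrix (Fin d) (Fin d) ℝ) : g ∈ OrbS g := by
  refine ⟨fun _ => 1, 1, by simp, by simp, ?_⟩
  rw [zR_one, Matrix.mul_one]
  have : diagonal (fun _ : Fin d => (1 : ℝ)) = 1 := diagonal_one
  rw [this, Matrix.one_mul]

lemma orbS_det {g h : Matrix (Fin d) (Fin d) ℝ} (hh : h ∈ closure (OrbS g)) :
    |h.det| = |g.det| := by
  have h1 : IsClosed {h : Matrix (Fin d) (Fin d) ℝ | |h.det| = |g.det|} :=
    isClosed_eq (continuous_abs.comp continuous_det') continuous_const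
  refine closure_minimal ?_ h1 hh
  rintro _ ⟨a, γ, ha, hγ, rfl⟩
  show |(diagonal a * g * zR γ).det| = |g.det|
  rw [det_mul, det_mul, det_diagonal, abs_mul, abs_mul, ha, one_mul, det_zR,
    abs_det_of_isUnit hγ, mul_one]

lemma orbS_nu {g : Matrix (Fin d) (Fin d) ℝ} {ν : ℝ} (hnu : HasNu g ν)
    {h : Matrix (Fin d) (Fin d) ℝ} (hh : h ∈ closure (OrbS g)) : HasNu h ν := by
  intro m hm
  have h1 : IsClosed {h : Matrix (Fin d) (Fin d) ℝ | ν ≤ |FF h (iR m)|} :=
    isClosed_le continuous_const (continuous_abs.comp (continuous_FF (iR m)))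
  refine closure_minimal ?_ h1 hh
  rintro _ ⟨a, γ, ha, hγ, rfl⟩
  show ν ≤ |FF (diagonal a * g * zR γ) (iR m)|
  rw [abs_FF_orbS ha]
  exact hnu _ (unimod_mulVec_ne hγ hm)

lemma orbS_inv (g : Matrix (Fin d) (Fin d) ℝ) : InvB id (closure (OrbS g)) := by
  intro h hh a γ ha hγ
  refine map_mem_closure (f := fun h : Matrix (Fin d) (Fin d) ℝ => diagonal a * h * zR γ)
    ?_ hh ?_
  · exact (continuous_const.matrix_mul continuous_id).matrix_mul continuous_const
  · rintro _ ⟨b, δ, hb, hδ, rfl⟩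
    refine ⟨fun i => a i * b i, δ * γ, ?_, ?_, ?_⟩
    · rw [Finset.prod_mul_distrib, ha.2.1, one_mul, hb]
    · rw [det_mul]; exact hδ.mul hγ
    · rw [zR_mul, ← diagonal_mul_diagonal]
      simp only [Matrix.mul_assoc]

/-- if a limit vanishes at a nonzero integer point then the values are small -/
lemma sml_of_zero {g h : Matrix (Fin d) (Fin d) ℝ} (hh : h ∈ closure (OrbS g))
    {x : Fin d → ℤ} (hx : x ≠ 0) (h0 : FF h (iR x) = 0) : Sml g := by
  by_contra hcon
  obtain ⟨ν, hν, hnu⟩ := hasNu_of_not_sml hcon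
  have h1 := orbS_nu hnu hh x hx
  rw [h0, abs_zero] at h1
  exact absurd h1 (not_le.2 hν)

lemma FF_zero_of_row {h : Matrix (Fin d) (Fin d) ℝ} {x : Fin d → ℝ} {i : Fin d}
    (h0 : ∑ j, h i j * x j = 0) : FF h x = 0 := Finset.prod_eq_zero (Finset.mem_univ i) h0

section

variable {K : Type*} [Field K] [NumberField K] {s : ℕ}

/-- rational vectors clear to integral ones -/
lemma exists_clear (v : Fin d → ℚ) (hv : v ≠ 0) : ∃ (x : Fin d → ℤ) (k : ℕ), 0 < k ∧ x ≠ 0 ∧
    ∀ j, (x j : ℚ) = k * v j := by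
  classical
  refine ⟨fun j => (v j).num * ∏ b ∈ Finset.univ.erase j, ((v b).den : ℤ),
    ∏ b, (v b).den, Finset.prod_pos fun b _ => (v b).den_pos, ?_, ?_⟩
  · intro h0
    apply hv
    funext j
    have h1 := congrFun h0 j
    simp only [Pi.zero_apply] at h1
    rcases mul_eq_zero.1 h1 with h2 | h2
    · exact Rat.num_eq_zero.1 h2
    · exfalso
      rw [Finset.prod_eq_zero_iff] at h2
      obtain ⟨b, -, hb⟩ := h2
      exact (v b).den_ne_zero (by exact_mod_cast hb)
  · intro j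
    rw [← Finset.mul_prod_erase Finset.univ (fun b => (v b).den) (Finset.mem_univ j)]
    push_cast
    have h1 := Rat.mul_den_eq_num (v j)
    rw [← h1]
    ring

lemma card_fiber_le {h : Matrix (Fin d) (Fin d) ℝ} (hu : IsUnit h.det) (T : Finset (Fin d))
    (u : Fin s → Fin d → ℝ) (hT : ∀ i ∈ T, ∃ c : Fin s → ℝ, ∀ j, h i j = ∑ l, c l * u l j) :
    T.card ≤ s := by
  classical
  have hli : LinearIndependent ℝ (fun i : Fin d => h i) :=
    Matrix.linearIndependent_rows_iff_isUnit.2 ((Matrix.isUnit_iff_isUnit_det h).2 hu)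
  have h1 : LinearIndependent ℝ (fun i : T => h i.1) := hli.comp _ Subtype.val_injective
  choose c hc using fun i : T => hT i.1 i.2
  let L : (Fin s → ℝ) →ₗ[ℝ] (Fin d → ℝ) :=
    { toFun := fun y j => ∑ l, y l * u l j
      map_add' := by
        intro y y'
        funext j
        simp only [Pi.add_apply, add_mul, Finset.sum_add_distrib]
      map_smul' := by
        intro t y
        funext j
        simp only [Pi.smul_apply, smul_eq_mul, RingHom.id_apply, Finset.mul_sum, mul_assoc] }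
  have h2 : (fun i : T => h i.1) = L ∘ c := by
    funext i j
    exact hc i j
  rw [h2] at h1
  have h3 := (LinearIndependent.of_comp L h1).fintype_card_le_finrank
  rwa [Fintype.card_coe, Module.finrank_fintype_fun_eq_card, Fintype.card_fin] at h3

/-- the rows of a diagonalised matrix are combinations of conjugate vectors -/
lemma comb_of_act {B : Fin s → Fin d → K} {e : (Fin d → ℚ) ≃ₗ[ℚ] (Fin s → K)}
    (he : ∀ j l, e (Pi.single j 1) l = B l j) {ψ : Fin d → K →+* ℝ}
    {m : Matrix (Fin d) (Fin d) ℝ} (hm : Act (iotaB e) ψ m) (i : Fin d) : ∃ c : Fin s → ℝ,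
      ∀ j, m i j = ∑ l, c l * ψ i (B l j) := by
  obtain ⟨c, hc⟩ := (eig_iff e (ψ i) (m i)).1 (fun x => by
    have h1 := congrFun (hm x) i
    have h2 : (m * kap (iotaB e x)) i = m i ᵥ* kap (iotaB e x) := rfl
    rw [← h2, h1]
    funext j
    rw [diagonal_mul]
    rfl)
  exact ⟨c, fun j => by rw [hc j]; simp only [he]⟩

/-- each embedding belongs to the same number of rows -/
lemma count_emb {B : Fin s → Fin d → K} {e : (Fin d → ℚ) ≃ₗ[ℚ] (Fin s → K)}
    (he : ∀ j l, e (Pi.single j 1) l = B l j) (hdim : d = s * Module.finrank ℚ K)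
    {h : Matrix (Fin d) (Fin d) ℝ} (hu : IsUnit h.det)
    {ψ : Fin d → K →+* ℝ} (hψ : Act (iotaB e) ψ h) (τ : K →+* ℂ) :
    Nat.card {i // ∀ x, τ x = ((ψ i x : ℝ) : ℂ)} = s := by
  classical
  have hcard : ∀ τ : K →+* ℂ, Nat.card {i // ∀ x, τ x = ((ψ i x : ℝ) : ℂ)} =
      (Finset.univ.filter (fun i => cx (ψ i) = τ)).card := by
    intro τ
    rw [Nat.card_eq_fintype_card, Fintype.card_subtype]
    congr 1
    ext i
    simp only [Finset.mem_filter, Finset.mem_univ, true_and]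
    constructor
    · intro h1
      ext x
      exact (h1 x).symm
    · intro h1 x
      rw [← h1]
      rfl
  have hle : ∀ τ ∈ (Finset.univ : Finset (K →+* ℂ)),
      (Finset.univ.filter (fun i => cx (ψ i) = τ)).card ≤ s := by
    intro τ _
    by_cases hne : ∃ i₀, cx (ψ i₀) = τ
    · obtain ⟨i₀, hi₀⟩ := hne
      refine card_fiber_le hu _ (fun l j => ψ i₀ (B l j)) fun i hi => ?_
      have h1 : cx (ψ i) = τ := by simpa using hi
      have h2 : ψ i = ψ i₀ := cx_inj (h1.trans hi₀.symm)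
      obtain ⟨c, hc⟩ := comb_of_act he hψ i
      exact ⟨c, fun j => by rw [hc j, h2]⟩
    · push Not at hne
      have h1 : Finset.univ.filter (fun i => cx (ψ i) = τ) = ∅ := by
        refine Finset.filter_eq_empty_iff.2 fun i _ => hne i
      rw [h1]
      simp
  have hsum : ∑ τ : K →+* ℂ, (Finset.univ.filter (fun i => cx (ψ i) = τ)).card =
      ∑ _τ : K →+* ℂ, s := by
    rw [Finset.sum_const, Finset.card_univ, Embeddings.card, smul_eq_mul, mul_comm, ← hdim]
    have h1 := Finset.card_eq_sum_card_fiberwise (s := (Finset.univ : Finset (Fin d)))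
      (t := (Finset.univ : Finset (K →+* ℂ))) (f := fun i => cx (ψ i))
      (fun i _ => by simp)
    rw [Finset.card_univ, Fintype.card_fin] at h1
    exact h1.symm
  rw [hcard]
  exact (Finset.sum_eq_sum_iff_of_le hle).1 hsum τ (Finset.mem_univ τ)

end

end Pool.Agent.V7H90.Iso
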