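import Mathlib
import Pool.Agent.V7H90.Iso.Orbit

/-! # Isolation without a lower bound: dense values -/

open Filter Topology Matrix NumberField NumberField.mixedEmbedding

set_option linter.unusedSectionVars false

namespace Pool.Agent.V7H90.Iso

open H715R2 Pool.Agent.Y327 RatSpan

variable {K : Type*} [Field K] [NumberField K] {d : ℕ}

/-- limits of orbits of invertible matrices are invertible -/
lemma limit_unit' {g h : Matrix (Fin d) (Fin d) ℝ} (hg : g.det ≠ 0)
    (hh : h ∈ closure (OrbS g)) : IsUnit h.det := by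
  rw [isUnit_iff_ne_zero]
  intro h0
  have h1 := orbS_det hh
  rw [h0, abs_zero] at h1
  exact hg (abs_eq_zero.1 h1.symm)

lemma FF_smul (g : Matrix (Fin d) (Fin d) ℝ) (a : ℝ) (x : Fin d → ℝ) :
    FF g (a • x) = a ^ d * FF g x := by
  rw [FF_eq, FF_eq, Matrix.mulVec_smul]
  simp only [Pi.smul_apply, smul_eq_mul, Finset.prod_mul_distrib, Finset.prod_const,
    Finset.card_univ, Fintype.card_fin]

lemma VV_scale {g : Matrix (Fin d) (Fin d) ℝ} {a : ℝ} (ha : a ∈ VV g) (k : ℕ) :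
    (k : ℝ) ^ d * a ∈ VV g := by
  have h1 : Continuous fun a : ℝ => (k : ℝ) ^ d * a := continuous_const.mul continuous_id
  have h2 : Set.MapsTo (fun a : ℝ => (k : ℝ) ^ d * a)
      (Set.range fun m : Fin d → ℤ => FF g (iR m)) (Set.range fun m : Fin d → ℤ => FF g (iR m)) := by
    rintro _ ⟨m, rfl⟩
    refine ⟨(k : ℤ) • m, ?_⟩
    have : iR ((k : ℤ) • m) = (k : ℝ) • iR m := by
      funext j; simp [iR]
    show FF g (iR ((k : ℤ) • m)) = _
    rw [this, FF_smul]
  exact map_mem_closure h1 ha h2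

/-- an interval around zero gives everything -/
lemma VV_univ (hd : 0 < d) {g : Matrix (Fin d) (Fin d) ℝ} {a b : ℝ} (ha : a < 0) (hb : 0 < b)
    (h : Set.Icc a b ⊆ VV g) : VV g = Set.univ := by
  rw [Set.eq_univ_iff_forall]
  intro y
  obtain ⟨k, hk⟩ := exists_nat_ge (|y| / min (-a) b)
  have hm : 0 < min (-a) b := lt_min (by linarith) hb
  have hk1 : (0 : ℝ) < (k : ℝ) + 1 := by positivity
  have hkd : (k : ℝ) + 1 ≤ ((k : ℝ) + 1) ^ d := le_self_pow₀ (by linarith [k.cast_nonneg (α := ℝ)])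
    (by omega)
  have h0 : |y| ≤ min (-a) b * ((k : ℝ) + 1) ^ d := by
    rw [div_le_iff₀ hm] at hk
    nlinarith
  have h1 : y / ((k : ℝ) + 1) ^ d ∈ Set.Icc a b := by
    have h2 : |y / ((k : ℝ) + 1) ^ d| ≤ min (-a) b := by
      rw [abs_div, abs_of_pos (pow_pos hk1 d), div_le_iff₀ (pow_pos hk1 d)]
      exact h0
    have h3 := abs_le.1 h2
    constructor
    · have := min_le_left (-a) b
      linarith [h3.1]
    · exact h3.2.trans (min_le_right _ _)
  have h2 := VV_scale (h h1) (k + 1)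
  have h4 : ((k + 1 : ℕ) : ℝ) ^ d * (y / ((k : ℝ) + 1) ^ d) = y := by
    push_cast
    field_simp
  rwa [h4] at h2

/-- **A sign change.** -/
theorem sign_change {φ : Fin d → K →+* ℝ} {h₀ : Matrix (Fin d) (Fin d) ℝ} (hu : IsUnit h₀.det)
    {σ τ : K →+* ℝ} (hστ : σ ≠ τ) {w : Matrix (Fin d) (Fin d) ℝ} (hw0 : w ≠ 0)
    (hw : ∀ i j, ¬ (φ i = σ ∧ φ j = τ) → w i j = 0) :
    ∃ m : Fin d → ℤ, FF ((1 + (1 / 2 : ℝ) • w) * h₀) (iR m) *
      FF ((1 + (3 / 2 : ℝ) • w) * h₀) (iR m) < 0 := by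
  classical
  obtain ⟨i, j₀, hij⟩ : ∃ i j, w i j ≠ 0 := by
    by_contra hcon
    push Not at hcon
    exact hw0 (by ext i j; exact hcon i j)
  have hblk : φ i = σ ∧ φ j₀ = τ := by
    by_contra hcon
    exact hij (hw i j₀ hcon)
  -- the coordinates outside
  set A : ℝ := ∑ j ∈ Finset.univ.erase j₀, |w i j| with hA
  have hA0 : 0 ≤ A := Finset.sum_nonneg fun j _ => abs_nonneg _
  set δ : ℝ := 1 / (2 * (1 + A)) with hδ
  have hδ0 : 0 < δ := by positivity
  have hδA : δ * A ≤ 1 / 2 := by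
    rw [hδ, div_mul_eq_mul_div, one_mul, div_le_iff₀ (by positivity)]
    linarith
  set y : Fin d → ℝ := fun j => if j = j₀ then
    (1 - δ * ∑ j ∈ Finset.univ.erase j₀, w i j) / w i j₀ else δ with hy
  have hnum : 0 < 1 - δ * ∑ j ∈ Finset.univ.erase j₀, w i j := by
    have h1 : |∑ j ∈ Finset.univ.erase j₀, w i j| ≤ A := Finset.abs_sum_le_sum_abs _ _
    have h2 := (abs_le.1 h1).2
    nlinarith
  have hy0 : ∀ j, y j ≠ 0 := by
    intro j
    simp only [hy]
    split_ifs
    · exact div_ne_zero hnum.ne' hij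
    · exact hδ0.ne'
  set m : Fin d → ℝ := fun a => ∑ j, w a j * y j with hm
  have hmi : m i = 1 := by
    simp only [hm]
    rw [← Finset.add_sum_erase Finset.univ _ (Finset.mem_univ j₀)]
    have h1 : ∑ j ∈ Finset.univ.erase j₀, w i j * y j = δ * ∑ j ∈ Finset.univ.erase j₀, w i j := by
      rw [Finset.mul_sum]
      refine Finset.sum_congr rfl fun j hj => ?_
      simp only [hy, if_neg (Finset.ne_of_mem_erase hj)]
      ring
    rw [h1]
    simp only [hy, if_true]
    rw [mul_div_cancel₀ _ hij]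
    ring
  have hmo : ∀ a, φ a ≠ σ → m a = 0 := by
    intro a ha
    simp only [hm]
    refine Finset.sum_eq_zero fun j _ => ?_
    rw [hw a j (fun h => ha h.1), zero_mul]
  set z : Fin d → ℝ := fun a => if φ a = σ then (if a = i then -1 else 2 * |m a| + 1) else y a
    with hz
  have hwz : ∀ a, (w *ᵥ z) a = m a := by
    intro a
    simp only [Matrix.mulVec, dotProduct, hm]
    refine Finset.sum_congr rfl fun j _ => ?_
    by_cases hj : φ j = τ
    · have hj2 : φ j ≠ σ := fun h => hστ (h.symm.trans hj)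
      simp only [hz, if_neg hj2]
    · rw [hw a j (fun h => hj h.2), zero_mul, zero_mul]
  have hval : ∀ s : ℝ, FF ((1 + s • w) * h₀) (h₀⁻¹ *ᵥ z) = ∏ a, (z a + s * m a) := by
    intro s
    rw [FF_eq]
    refine Finset.prod_congr rfl fun a _ => ?_
    rw [Matrix.mulVec_mulVec, Matrix.mul_assoc, Matrix.mul_nonsing_inv _ hu, Matrix.mul_one,
      Matrix.add_mulVec, Matrix.one_mulVec, Matrix.smul_mulVec, Pi.add_apply, Pi.smul_apply,
      smul_eq_mul, hwz]
  have hneg : FF ((1 + (1 / 2 : ℝ) • w) * h₀) (h₀⁻¹ *ᵥ z) *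
      FF ((1 + (3 / 2 : ℝ) • w) * h₀) (h₀⁻¹ *ᵥ z) < 0 := by
    rw [hval, hval, ← Finset.prod_mul_distrib,
      ← Finset.mul_prod_erase Finset.univ _ (Finset.mem_univ i)]
    refine mul_neg_of_neg_of_pos ?_ (Finset.prod_pos fun a ha => ?_)
    · have h1 : z i = -1 := by simp only [hz, if_pos hblk.1, if_true]
      rw [h1, hmi]
      norm_num
    · have hai := Finset.ne_of_mem_erase ha
      by_cases haσ : φ a = σ
      · have h1 : z a = 2 * |m a| + 1 := by simp only [hz, if_pos haσ, if_neg hai]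
        rw [h1]
        have h2 := neg_abs_le (m a)
        have h3 := abs_nonneg (m a)
        refine mul_pos ?_ ?_
        · linarith
        · linarith
      · have h1 : z a = y a := by simp only [hz, if_neg haσ]
        rw [h1, hmo a haσ, mul_zero, mul_zero, add_zero]
        exact mul_self_pos.2 (hy0 a)
  -- an integer point
  have hcont : ∀ g : Matrix (Fin d) (Fin d) ℝ, Continuous (fun x : Fin d → ℝ => FF g x) := by
    intro g
    unfold FF
    refine continuous_finsetProd _ fun i _ => continuous_finsetSum _ fun j _ => ?_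
    exact continuous_const.mul (continuous_apply j)
  set U : Set (Fin d → ℝ) := {x | FF ((1 + (1 / 2 : ℝ) • w) * h₀) x *
    FF ((1 + (3 / 2 : ℝ) • w) * h₀) x < 0} with hU
  have hUo : IsOpen U := isOpen_lt ((hcont _).mul (hcont _)) continuous_const
  obtain ⟨n, k, hk, hn⟩ := exists_int_point U hUo _ hneg
  refine ⟨n, ?_⟩
  have hk' : (0 : ℝ) < k := by exact_mod_cast hk
  have h1 : iR n = (k : ℝ) • (fun l => (n l : ℝ) / k) := by
    funext l
    simp only [iR, Pi.smul_apply, smul_eq_mul]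
    field_simp
  rw [h1, FF_smul, FF_smul]
  have h2 : FF ((1 + (1 / 2 : ℝ) • w) * h₀) (fun l => (n l : ℝ) / k) *
    FF ((1 + (3 / 2 : ℝ) • w) * h₀) (fun l => (n l : ℝ) / k) < 0 := hn
  have h3 : 0 < (k : ℝ) ^ d := pow_pos hk' d
  have h4 : ∀ p q : ℝ, p * q < 0 → (k : ℝ) ^ d * p * ((k : ℝ) ^ d * q) < 0 := by
    intro p q hpq
    have h5 : (k : ℝ) ^ d * p * ((k : ℝ) ^ d * q) = ((k : ℝ) ^ d * (k : ℝ) ^ d) * (p * q) := by ring
    rw [h5]
    exact mul_neg_of_pos_of_neg (mul_pos h3 h3) hpq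
  exact h4 _ _ h2

/-- the orbit closure contains a half line: the values are dense -/
theorem dense_of_line (hd : 0 < d) {φ : Fin d → K →+* ℝ} {g h₀ : Matrix (Fin d) (Fin d) ℝ}
    (hu : IsUnit h₀.det)
    {σ τ : K →+* ℝ} (hστ : σ ≠ τ) {w : Matrix (Fin d) (Fin d) ℝ} (hw0 : w ≠ 0)
    (hw : ∀ i j, ¬ (φ i = σ ∧ φ j = τ) → w i j = 0)
    (hM : ∀ s : ℝ, 0 < s → (1 + s • w) * h₀ ∈ closure (Orb g)) : VV g = Set.univ := by
  obtain ⟨m, hm⟩ := sign_change (φ := φ) hu hστ hw0 hw
  set f : ℝ → ℝ := fun s => FF ((1 + s • w) * h₀) (iR m) with hf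
  have hfc : Continuous f := by
    refine (continuous_FF (iR m)).comp ?_
    exact (continuous_const.add (continuous_id.smul continuous_const)).matrix_mul continuous_const
  have hmem : ∀ s ∈ Set.Icc (1 / 2 : ℝ) (3 / 2), f s ∈ VV g := by
    intro s hs
    exact mem_VV_of_mem_closure (hM s (by linarith [hs.1])) m
  rcases mul_neg_iff.1 hm with ⟨h1, h2⟩ | ⟨h1, h2⟩
  · refine VV_univ hd h2 h1 ?_
    intro t ht
    obtain ⟨s, hs, hst⟩ := intermediate_value_Icc' (by norm_num : (1 / 2 : ℝ) ≤ 3 / 2)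
      hfc.continuousOn ht
    rw [← hst]
    exact hmem s hs
  · refine VV_univ hd h1 h2 ?_
    intro t ht
    obtain ⟨s, hs, hst⟩ := intermediate_value_Icc (by norm_num : (1 / 2 : ℝ) ≤ 3 / 2)
      hfc.continuousOn ht
    rw [← hst]
    exact hmem s hs

lemma act_of_entries {ι : K →+* Module.End ℚ (Fin d → ℚ)} {φ : Fin d → K →+* ℝ}
    {h h₀ : Matrix (Fin d) (Fin d) ℝ} (hu : IsUnit h₀.det) (hφ : Act ι φ h₀)
    (h2 : ∀ i j, φ i ≠ φ j → (h * h₀⁻¹) i j = 0) : Act ι φ h := by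
  intro x
  have h3 : (h * h₀⁻¹) * diagonal (fun i => φ i x) = diagonal (fun i => φ i x) * (h * h₀⁻¹) := by
    ext i j
    rw [Matrix.mul_diagonal, Matrix.diagonal_mul]
    by_cases hij : φ i = φ j
    · rw [hij, mul_comm]
    · rw [h2 i j hij, zero_mul, mul_zero]
  calc h * kap (ι x) = (h * h₀⁻¹) * (h₀ * kap (ι x)) := by
        rw [Matrix.mul_assoc, ← Matrix.mul_assoc h₀⁻¹, Matrix.nonsing_inv_mul _ hu, Matrix.one_mul]
    _ = ((h * h₀⁻¹) * diagonal (fun i => φ i x)) * h₀ := by rw [hφ]; simp only [Matrix.mul_assoc]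
    _ = diagonal (fun i => φ i x) * ((h * h₀⁻¹) * h₀) := by rw [h3, Matrix.mul_assoc]
    _ = _ := by rw [Matrix.mul_assoc h, Matrix.nonsing_inv_mul _ hu, Matrix.mul_one]

/-- isolation in the orbit closure, or dense values -/
theorem isolated_or_dense (hd : 0 < d) (hk : 3 ≤ Module.finrank ℚ K)
    {ι : K →+* Module.End ℚ (Fin d → ℚ)} {φ : Fin d → K →+* ℝ} {g h₀ : Matrix (Fin d) (Fin d) ℝ}
    (hu : IsUnit h₀.det) (hφ : Act ι φ h₀) :
    (∀ᶠ h in 𝓝[closure (Orb g)] h₀, Act ι φ h) ∨ VV g = Set.univ := by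
  have hreal := all_real hd hu hφ
  have hinv : InvB id (closure (Orb g)) := fun h hh a γ ha hγ => closure_mul hh ha.1 ha.2.1 hγ
  by_cases h1 : ∀ᶠ h in 𝓝[closure (Orb g)] h₀, ∀ i j, φ i ≠ φ j → (h * h₀⁻¹) i j = 0
  · left
    exact h1.mono fun h h2 => act_of_entries hu hφ h2
  · right
    rw [Filter.not_eventually] at h1
    push Not at h1
    obtain ⟨σ, τ, w, hστ, hw0, hw, hwM⟩ := exists_exit hreal isClosed_closure hinv hu hφ h1
    exact dense_of_line hd hu hστ hw0 hw fun s hs =>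
      scale hk hreal isClosed_closure hinv hu hφ hστ hw hwM hs

lemma act_sign {ι : K →+* Module.End ℚ (Fin d → ℚ)} {φ : Fin d → K →+* ℝ}
    {h : Matrix (Fin d) (Fin d) ℝ} {D : Fin d → ℝ} (hD : ∀ i, D i * D i = 1) :
    Act ι φ (diagonal D * h) ↔ Act ι φ h := by
  have hDD : (diagonal D : Matrix (Fin d) (Fin d) ℝ) * diagonal D = 1 := by
    rw [diagonal_mul_diagonal]
    simp only [hD, diagonal_one]
  have hone : ∀ {m : Matrix (Fin d) (Fin d) ℝ}, Act ι φ m → Act ι φ (diagonal D * m) := by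
    intro m hm x
    rw [Matrix.mul_assoc, hm, ← Matrix.mul_assoc, ← Matrix.mul_assoc, diagonal_mul_diagonal,
      diagonal_mul_diagonal]
    congr 2
    funext i
    rw [mul_comm]
  refine ⟨fun h1 => ?_, hone⟩
  have h2 := hone h1
  rwa [← Matrix.mul_assoc, hDD, Matrix.one_mul] at h2

/-- **Isolation or dense values.** -/
theorem isolation_dense (hd : 0 < d) (hk : 3 ≤ Module.finrank ℚ K)
    {ι : K →+* Module.End ℚ (Fin d → ℚ)} {φ : Fin d → K →+* ℝ} {g h : Matrix (Fin d) (Fin d) ℝ}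
    (hg : g.det ≠ 0) (hφ : Act ι φ h) {a : ℕ → Fin d → ℝ}
    {γ : ℕ → Matrix (Fin d) (Fin d) ℤ} (ha : ∀ n, |∏ i, a n i| = 1) (hγ : ∀ n, IsUnit (γ n).det)
    (hlim : Tendsto (fun n => diagonal (a n) * g * zR (γ n)) atTop (𝓝 h)) :
    (∀ᶠ n in atTop, Act ι φ (diagonal (a n) * g * zR (γ n))) ∨ VV g = Set.univ := by
  classical
  by_cases hev : ∀ᶠ n in atTop, Act ι φ (diagonal (a n) * g * zR (γ n))
  · exact Or.inl hev
  right
  rw [Filter.not_eventually] at hev
  have ha0 : ∀ n i, a n i ≠ 0 := by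
    intro n i h0
    have h3 := ha n
    rw [Finset.prod_eq_zero (Finset.mem_univ i) h0, abs_zero] at h3
    exact zero_ne_one h3
  -- constant signs
  obtain ⟨b, hb⟩ : ∃ b : Fin d → Bool, ∃ᶠ n in atTop,
      ¬ Act ι φ (diagonal (a n) * g * zR (γ n)) ∧ (fun i => decide (0 < a n i)) = b := by
    by_contra hcon
    rw [not_exists] at hcon
    have h1 : ∀ᶠ n in atTop, ∀ b : Fin d → Bool,
        ¬ (¬ Act ι φ (diagonal (a n) * g * zR (γ n)) ∧ (fun i => decide (0 < a n i)) = b) :=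
      Filter.eventually_all.2 fun b => not_frequently.1 (hcon b)
    exact hev (h1.mono fun n hn h2 => hn _ ⟨h2, rfl⟩)
  set D : Fin d → ℝ := fun i => if b i then 1 else -1 with hD
  have hDD : ∀ i, D i * D i = 1 := by
    intro i
    simp only [hD]
    split_ifs <;> norm_num
  have hDD' : (diagonal D : Matrix (Fin d) (Fin d) ℝ) * diagonal D = 1 := by
    rw [diagonal_mul_diagonal]
    simp only [hDD, diagonal_one]
  have hDdet : IsUnit (diagonal D * h).det := by
    have hh : IsUnit h.det := limit_unit' hg (mem_closure_of_tendsto hlim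
      (Eventually.of_forall fun n => ⟨a n, γ n, ha n, hγ n, rfl⟩))
    rw [det_mul]
    refine IsUnit.mul ?_ hh
    have h1 := congrArg Matrix.det hDD'
    rw [det_mul, det_one] at h1
    exact IsUnit.of_mul_eq_one _ h1
  rcases isolated_or_dense (g := g) hd hk hDdet ((act_sign hDD).2 hφ) with h1 | h1
  swap
  · exact h1
  exfalso
  obtain ⟨ρ, hρ, hρ2⟩ := extraction_of_frequently_atTop hb
  have h2 : Tendsto (fun n => diagonal D * (diagonal (a (ρ n)) * g * zR (γ (ρ n)))) atTop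
      (𝓝[closure (Orb g)] (diagonal D * h)) := by
    refine tendsto_nhdsWithin_iff.2 ⟨tendsto_const_nhds.mul (hlim.comp hρ.tendsto_atTop),
      Eventually.of_forall fun n => subset_closure ?_⟩
    refine ⟨fun i => D i * a (ρ n) i, γ (ρ n), fun i => ?_, ?_, hγ _, ?_⟩
    · have h3 : decide (0 < a (ρ n) i) = b i := congrFun (hρ2 n).2 i
      simp only [hD]
      rw [← h3]
      by_cases h4 : 0 < a (ρ n) i
      · simp [h4]
      · have h5 : a (ρ n) i < 0 := lt_of_le_of_ne (not_lt.1 h4) (ha0 _ _)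
        simp [h4, h5]
    · have hpos : 0 < ∏ i, (D i * a (ρ n) i) := by
        refine Finset.prod_pos fun i _ => ?_
        have h3 : decide (0 < a (ρ n) i) = b i := congrFun (hρ2 n).2 i
        simp only [hD]
        rw [← h3]
        by_cases h4 : 0 < a (ρ n) i
        · simp [h4]
        · have h5 : a (ρ n) i < 0 := lt_of_le_of_ne (not_lt.1 h4) (ha0 _ _)
          simp [h4, h5]
      have habs : |∏ i, (D i * a (ρ n) i)| = 1 := by
        rw [Finset.prod_mul_distrib, abs_mul, ha, mul_one]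
        have h5 : (∏ i, D i) * (∏ i, D i) = 1 := by
          rw [← Finset.prod_mul_distrib]
          exact Finset.prod_eq_one fun i _ => hDD i
        have h6 : |∏ i, D i| * |∏ i, D i| = 1 := by rw [← abs_mul, h5, abs_one]
        have h7 := abs_nonneg (∏ i, D i)
        nlinarith
      rwa [abs_of_pos hpos] at habs
    · rw [← diagonal_mul_diagonal]
      simp only [Matrix.mul_assoc]
  obtain ⟨n, hn⟩ := (h2.eventually h1).exists
  exact (hρ2 n).1 ((act_sign hDD).1 hn)

end Pool.Agent.V7H90.Iso
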