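import Mathlib
import Pool.Agent.V7H90.Iso.Dense

/-! # One-parameter groups in the orbit closure are diagonal, or the values are dense -/

open Filter Topology Matrix NumberField NumberField.mixedEmbedding

set_option linter.unusedSectionVars false

namespace Pool.Agent.V7H90.Iso

open H715R2 Pool.Agent.Y327 RatSpan

variable {K : Type*} [Field K] [NumberField K] {d : ℕ}

/-- a matrix near the identity which is not diagonal changes a sign -/
lemma near_diag {E : Matrix (Fin d) (Fin d) ℝ} (h1 : ∀ b, 1 / 2 < E b b)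
    (h2 : ∀ b, ∑ c ∈ Finset.univ.erase b, |E b c| < 1 / 2) {i j : Fin d} (hij : i ≠ j)
    (hE : E i j ≠ 0) : ∃ y : Fin d → ℝ, (∏ b, y b) * (∏ b, (E *ᵥ y) b) < 0 := by
  classical
  set S : ℝ := ∑ c ∈ Finset.univ.erase i, |E i c| with hS
  have hS0 : 0 < S := by
    refine Finset.sum_pos' (fun c _ => abs_nonneg _) ⟨j, ?_, abs_pos.2 hE⟩
    exact Finset.mem_erase.2 ⟨hij.symm, Finset.mem_univ _⟩
  have hS1 : S < 1 / 2 := h2 i
  set y : Fin d → ℝ := fun c => if c = i then -(S / (2 * E i i)) else
    (if 0 ≤ E i c then 1 else -1) with hy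
  have hyi : y i = -(S / (2 * E i i)) := by simp [hy]
  have hyc : ∀ c, c ≠ i → y c = if 0 ≤ E i c then 1 else -1 := by
    intro c hc
    simp [hy, hc]
  have hyc1 : ∀ c, c ≠ i → |y c| = 1 := by
    intro c hc
    rw [hyc c hc]
    split_ifs <;> norm_num
  have hEi := h1 i
  have hyi1 : |y i| ≤ 1 := by
    rw [hyi, abs_neg, abs_of_pos (div_pos hS0 (by linarith)), div_le_one (by linarith)]
    linarith
  have hy1 : ∀ c, |y c| ≤ 1 := by
    intro c
    by_cases hc : c = i
    · rw [hc]; exact hyi1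
    · exact (hyc1 c hc).le
  refine ⟨y, ?_⟩
  rw [← Finset.prod_mul_distrib, ← Finset.mul_prod_erase Finset.univ _ (Finset.mem_univ i)]
  refine mul_neg_of_neg_of_pos ?_ (Finset.prod_pos fun b hb => ?_)
  · have h3 : (E *ᵥ y) i = S / 2 := by
      simp only [Matrix.mulVec, dotProduct]
      rw [← Finset.add_sum_erase Finset.univ _ (Finset.mem_univ i)]
      have h4 : ∑ c ∈ Finset.univ.erase i, E i c * y c = S := by
        rw [hS]
        refine Finset.sum_congr rfl fun c hc => ?_
        rw [hyc c (Finset.ne_of_mem_erase hc)]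
        split_ifs with h5
        · rw [mul_one, abs_of_nonneg h5]
        · rw [mul_neg_one, abs_of_neg (not_le.1 h5)]
      rw [h4, hyi]
      have h5 : E i i ≠ 0 := by linarith
      field_simp
      ring
    rw [h3, hyi]
    have h4 : 0 < S / (2 * E i i) := div_pos hS0 (by linarith)
    have h5 : 0 < S / 2 := by linarith
    nlinarith
  · have hbi := Finset.ne_of_mem_erase hb
    have h3 : |(E *ᵥ y) b - E b b * y b| < 1 / 2 := by
      simp only [Matrix.mulVec, dotProduct]
      rw [← Finset.add_sum_erase Finset.univ _ (Finset.mem_univ b), add_sub_cancel_left]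
      refine lt_of_le_of_lt (Finset.abs_sum_le_sum_abs _ _) (lt_of_le_of_lt ?_ (h2 b))
      refine Finset.sum_le_sum fun c _ => ?_
      rw [abs_mul]
      exact mul_le_of_le_one_right (abs_nonneg _) (hy1 c)
    have h4 := abs_lt.1 h3
    have h5 := h1 b
    rcases abs_eq (zero_le_one' ℝ) |>.1 (hyc1 b hbi) with h6 | h6
    · rw [h6] at h4 ⊢
      linarith [h4.1]
    · rw [h6] at h4 ⊢
      linarith [h4.2]

/-- the set of values contains the value at an element of the path -/
lemma value_of_Sm {ι : K →+* Module.End ℚ (Fin d → ℚ)} {g : Matrix (Fin d) (Fin d) ℝ}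
    (hg : g.det ≠ 0) {h : Matrix (Fin d) (Fin d) ℝ} (hh : h ∈ closure (Orb g)) {c : mixedSpace K}
    (hc : c ∈ Sm ι (closure (Orb g)) h) (m : Fin d → ℤ) :
    FF (h * jhom ι c) (iR m) / |(jhom ι c).det| ∈ VV g := by
  obtain ⟨ρ, hρ, p, hp, hcm⟩ := hc
  have h1 : |(h * jhom ι c).det| = ρ ^ d * |g.det| := by
    rw [hcm, det_smul, Fintype.card_fin, abs_mul, abs_of_pos (pow_pos hρ d),
      abs_det_closure hp]
  rw [det_mul, abs_mul, abs_det_closure hh, mul_comm] at h1
  have h2 : |(jhom ι c).det| = ρ ^ d := mul_right_cancel₀ (abs_pos.2 hg).ne' h1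
  have h3 : FF (h * jhom ι c) (iR m) = ρ ^ d * FF p (iR m) := by
    rw [hcm, FF_eq, FF_eq, Matrix.smul_mulVec]
    simp only [Pi.smul_apply, smul_eq_mul, Finset.prod_mul_distrib, Finset.prod_const,
      Finset.card_univ, Fintype.card_fin]
  rw [h2, h3, mul_div_cancel_left₀ _ (pow_pos hρ d).ne']
  exact mem_VV_of_mem_closure hp m

/-- **One-parameter groups are diagonal, or the values are dense.** -/
theorem diag_of_line' (hd : 0 < d) {ι : K →+* Module.End ℚ (Fin d → ℚ)}
    {g : Matrix (Fin d) (Fin d) ℝ} (hg : g.det ≠ 0) (hVV : VV g ≠ Set.univ)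
    {h : Matrix (Fin d) (Fin d) ℝ} (hh : h ∈ closure (Orb g)) {w : mixedSpace K}
    (hw : ∀ t : ℝ, 0 ≤ t → Ex (t • w) ∈ Sm ι (closure (Orb g)) h) (t : ℝ) :
    ∃ a : Fin d → ℝ, h * jhom ι (Ex (t • w)) = diagonal a * h := by
  classical
  have hdet : h.det ≠ 0 := by
    intro h0
    have := abs_det_closure hh
    rw [h0, abs_zero] at this
    exact hg (abs_eq_zero.1 this.symm)
  have hu : IsUnit h.det := isUnit_iff_ne_zero.2 hdet
  set J : ℝ → Matrix (Fin d) (Fin d) ℝ := fun s => jhom ι (Ex (s • w)) with hJ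
  have hJc : Continuous J :=
    (jhom_continuous ι).comp (Ex_continuous.comp (continuous_id.smul continuous_const))
  have hJ0 : J 0 = 1 := by simp only [hJ, zero_smul, Ex_zero, map_one]
  have hJadd : ∀ s t, J (s + t) = J s * J t := by
    intro s t
    simp only [hJ]
    rw [add_smul, Ex_add, map_mul]
  have hJdet : ∀ s, (J s).det ≠ 0 := fun s => det_Ex _
  set E : ℝ → Matrix (Fin d) (Fin d) ℝ := fun s => h * J s * h⁻¹ with hE
  have hEc : Continuous E := (continuous_const.matrix_mul hJc).matrix_mul continuous_const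
  have hE0 : E 0 = 1 := by
    simp only [hE]
    rw [hJ0, Matrix.mul_one, Matrix.mul_nonsing_inv _ hu]
  have hEh : ∀ s, E s * h = h * J s := by
    intro s
    simp only [hE]
    rw [Matrix.mul_assoc, Matrix.nonsing_inv_mul _ hu, Matrix.mul_one]
  -- small times
  have hsmall : ∀ᶠ s in 𝓝 (0 : ℝ), (∀ b, 1 / 2 < E s b b) ∧
      ∀ b, ∑ c ∈ Finset.univ.erase b, |E s b c| < 1 / 2 := by
    refine Filter.Eventually.and (Filter.eventually_all.2 fun b => ?_)
      (Filter.eventually_all.2 fun b => ?_)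
    · have h1 : Continuous (fun s => E s b b) := (continuous_apply_apply b b).comp hEc
      have h2 := h1.tendsto 0
      rw [hE0, Matrix.one_apply_eq] at h2
      exact h2.eventually (lt_mem_nhds (by norm_num))
    · have h1 : Continuous (fun s => ∑ c ∈ Finset.univ.erase b, |E s b c|) :=
        continuous_finsetSum _ fun c _ => ((continuous_apply_apply b c).comp hEc).abs
      have h2 := h1.tendsto 0
      have h3 : ∑ c ∈ Finset.univ.erase b, |E 0 b c| = 0 := by
        refine Finset.sum_eq_zero fun c hc => ?_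
        rw [hE0, Matrix.one_apply_ne (Finset.ne_of_mem_erase hc).symm, abs_zero]
      rw [h3] at h2
      exact h2.eventually (gt_mem_nhds (by norm_num))
  have hdiag : ∀ᶠ s in 𝓝 (0 : ℝ), 0 ≤ s → ∀ i j, i ≠ j → E s i j = 0 := by
    filter_upwards [hsmall] with s hs hs0 i j hij
    by_contra hne
    obtain ⟨y, hy⟩ := near_diag hs.1 hs.2 hij hne
    -- an integer point
    have hcont : ∀ g : Matrix (Fin d) (Fin d) ℝ, Continuous (fun x : Fin d → ℝ => FF g x) := by
      intro g
      unfold FF
      refine continuous_finsetProd _ fun i _ => continuous_finsetSum _ fun j _ => ?_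
      exact continuous_const.mul (continuous_apply j)
    set U : Set (Fin d → ℝ) := {x | FF h x * FF (h * J s) x < 0} with hU
    have hUo : IsOpen U := isOpen_lt ((hcont _).mul (hcont _)) continuous_const
    have hyU : h⁻¹ *ᵥ y ∈ U := by
      show FF h (h⁻¹ *ᵥ y) * FF (h * J s) (h⁻¹ *ᵥ y) < 0
      rw [← hEh, FF_eq, FF_eq, Matrix.mulVec_mulVec, Matrix.mulVec_mulVec, Matrix.mul_assoc,
        Matrix.mul_nonsing_inv _ hu, Matrix.one_mulVec, Matrix.mul_one]
      exact hy
    obtain ⟨n, k, hk, hn⟩ := exists_int_point U hUo _ hyU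
    have hk' : (0 : ℝ) < k := by exact_mod_cast hk
    have h1 : iR n = (k : ℝ) • (fun l => (n l : ℝ) / k) := by
      funext l
      simp only [iR, Pi.smul_apply, smul_eq_mul]
      field_simp
    have h2 : FF h (iR n) * FF (h * J s) (iR n) < 0 := by
      rw [h1, FF_smul, FF_smul]
      have h3 : FF h (fun l => (n l : ℝ) / k) * FF (h * J s) (fun l => (n l : ℝ) / k) < 0 := hn
      have h4 : 0 < (k : ℝ) ^ d := pow_pos hk' d
      have h5 : ∀ p q : ℝ, p * q < 0 → (k : ℝ) ^ d * p * ((k : ℝ) ^ d * q) < 0 := by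
        intro p q hpq
        have h6 : (k : ℝ) ^ d * p * ((k : ℝ) ^ d * q) =
          ((k : ℝ) ^ d * (k : ℝ) ^ d) * (p * q) := by ring
        rw [h6]
        exact mul_neg_of_pos_of_neg (mul_pos h4 h4) hpq
      exact h5 _ _ h3
    set f : ℝ → ℝ := fun r => FF (h * J r) (iR n) / |(J r).det| with hf
    have hfc : Continuous f := by
      refine Continuous.div ((continuous_FF (iR n)).comp (continuous_const.matrix_mul hJc))
        ((Continuous.matrix_det hJc).abs) fun r => (abs_pos.2 (hJdet r)).ne'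
    have hmem : ∀ r ∈ Set.Icc 0 s, f r ∈ VV g := fun r hr =>
      value_of_Sm hg hh (hw r hr.1) n
    have hf0 : f 0 = FF h (iR n) := by
      simp only [hf]
      rw [hJ0, Matrix.mul_one, det_one, abs_one, div_one]
    have hprod : f 0 * f s < 0 := by
      rw [hf0]
      simp only [hf]
      rw [← mul_div_assoc]
      exact div_neg_of_neg_of_pos h2 (abs_pos.2 (hJdet s))
    apply hVV
    rcases mul_neg_iff.1 hprod with ⟨h3, h4⟩ | ⟨h3, h4⟩
    · refine VV_univ hd h4 h3 ?_
      intro r hr
      obtain ⟨q, hq, hqr⟩ := intermediate_value_Icc' hs0 hfc.continuousOn hr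
      rw [← hqr]
      exact hmem q hq
    · refine VV_univ hd h3 h4 ?_
      intro r hr
      obtain ⟨q, hq, hqr⟩ := intermediate_value_Icc hs0 hfc.continuousOn hr
      rw [← hqr]
      exact hmem q hq
  -- all times
  have hdg : ∀ s, (∀ i j, i ≠ j → E s i j = 0) → ∃ a : Fin d → ℝ, h * J s = diagonal a * h := by
    intro s hs
    refine ⟨fun i => E s i i, ?_⟩
    rw [← hEh]
    congr 1
    ext i j
    by_cases hij : i = j
    · subst hij; rw [diagonal_apply_eq]
    · rw [diagonal_apply_ne _ hij, hs i j hij]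
  have hpow : ∀ (n : ℕ) (s : ℝ), (∃ a : Fin d → ℝ, h * J s = diagonal a * h) →
      ∃ a : Fin d → ℝ, h * J (n * s) = diagonal a * h := by
    intro n s hs
    obtain ⟨a, ha⟩ := hs
    induction n with
    | zero => exact ⟨fun _ => 1, by
        rw [Nat.cast_zero, zero_mul, hJ0, Matrix.mul_one, diagonal_one, Matrix.one_mul]⟩
    | succ n ih =>
      obtain ⟨b, hb⟩ := ih
      refine ⟨fun i => b i * a i, ?_⟩
      have h1 : ((n + 1 : ℕ) : ℝ) * s = n * s + s := by push_cast; ring
      rw [h1, hJadd, ← Matrix.mul_assoc, hb, Matrix.mul_assoc, ha, ← Matrix.mul_assoc,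
        diagonal_mul_diagonal]
  have hpos : ∀ s : ℝ, 0 ≤ s → ∃ a : Fin d → ℝ, h * J s = diagonal a * h := by
    intro s hs
    obtain ⟨ε, hε, hball⟩ := Metric.eventually_nhds_iff.1 hdiag
    obtain ⟨n, hn⟩ := exists_nat_gt (s / ε)
    have hn0 : (0 : ℝ) < n := lt_of_le_of_lt (div_nonneg hs hε.le) hn
    have h1 : s / n < ε := by
      rw [div_lt_iff₀ hn0]
      rw [div_lt_iff₀ hε] at hn
      linarith
    have h2 : 0 ≤ s / n := div_nonneg hs hn0.le
    have h3 := hball (y := s / n) (by rw [Real.dist_eq, sub_zero, abs_of_nonneg h2]; exact h1) h2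
    have h4 := hpow n (s / n) (hdg _ h3)
    rwa [mul_div_cancel₀ _ hn0.ne'] at h4
  rcases le_total 0 t with ht | ht
  · exact hpos t ht
  · obtain ⟨a, ha⟩ := hpos (-t) (by linarith)
    have hdet2 : (h * J (-t)).det ≠ 0 := by
      rw [det_mul]
      exact mul_ne_zero hdet (hJdet _)
    have ha0 : ∀ i, a i ≠ 0 := by
      intro i h0
      apply hdet2
      rw [ha, det_mul, det_diagonal, Finset.prod_eq_zero (Finset.mem_univ i) h0, zero_mul]
    refine ⟨fun i => (a i)⁻¹, ?_⟩
    have h1 : J (-t) * J t = 1 := by rw [← hJadd, neg_add_cancel, hJ0]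
    have h2 : (diagonal (fun i => (a i)⁻¹) : Matrix (Fin d) (Fin d) ℝ) * diagonal a = 1 := by
      rw [diagonal_mul_diagonal]
      have : (fun i => (a i)⁻¹ * a i) = fun _ => (1 : ℝ) := by
        funext i
        exact inv_mul_cancel₀ (ha0 i)
      rw [this, diagonal_one]
    calc h * J t = (diagonal (fun i => (a i)⁻¹) * diagonal a) * h * J t := by
          rw [h2, Matrix.one_mul]
      _ = diagonal (fun i => (a i)⁻¹) * (diagonal a * h) * J t := by
          simp only [Matrix.mul_assoc]
      _ = diagonal (fun i => (a i)⁻¹) * (h * J (-t)) * J t := by rw [ha]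
      _ = diagonal (fun i => (a i)⁻¹) * h * (J (-t) * J t) := by
          simp only [Matrix.mul_assoc]
      _ = _ := by rw [h1, Matrix.mul_one]

end Pool.Agent.V7H90.Iso
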