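import Mathlib
import Pool.Agent.V7H90.Iso.Line

/-! # Rigidity of fields of symmetries: the theorem of `Pool.Agent.Y327.Rigid2` with an abstract
hypothesis in place of the lower bound (the proof is the one given there) -/

open Filter Topology Matrix NumberField NumberField.mixedEmbedding

set_option linter.unusedSectionVars false

namespace Pool.Agent.V7H90.Iso

open H715R2 Pool.Agent.Y327

variable {K : Type*} [Field K] [NumberField K] {d : ℕ}

/-- **Returns to the identity act diagonally.** -/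
theorem asub_of_return' (hd : 0 < d) {ι : K →+* Module.End ℚ (Fin d → ℚ)} {V : ℝ} (hV : 0 < V)
    {M : Set (Matrix (Fin d) (Fin d) ℝ)} (hMdet : ∀ h ∈ M, |h.det| = V)
    (hMc : IsClosed M) {h : Matrix (Fin d) (Fin d) ℝ}
    (hh : h ∈ M)
    (hline : ∀ w : mixedSpace K, (∀ t : ℝ, 0 ≤ t → Ex (t • w) ∈ Sm ι M h) →
      ∀ t : ℝ, ∃ a : Fin d → ℝ, h * jhom ι (Ex (t • w)) = diagonal a * h) {P : ℕ → mixedSpace K} (hP : Tendsto P atTop (𝓝 1))
    (hPS : ∀ (n k : ℕ) (c : mixedSpace K), c ∈ Pd ι h → c * P n ^ k ∈ Sm ι M h) :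
    ∀ᶠ n in atTop, P n ∈ Pd ι h := by
  have hdet : h.det ≠ 0 := by
    intro h0
    have := hMdet h hh
    rw [h0, abs_zero] at this
    exact hV.ne this
  have hE : ∀ᶠ n in atTop, Ex (Lx (P n)) = P n := hP.eventually Ex_Lx_eventually
  suffices h : ∀ᶠ n in atTop, Lx (P n) ∈ asub ι h by
    filter_upwards [hE, h] with n h1 h2
    rw [← h1]
    exact Pd_of_asub hdet h2
  by_contra hcon
  rw [Filter.not_eventually] at hcon
  obtain ⟨ψ, hψ, hψ2⟩ := Filter.extraction_of_frequently_atTop (hcon.and_eventually hE)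
  set v : ℕ → mixedSpace K := fun n => Lx (P (ψ n)) with hv
  have hvlim : Tendsto v atTop (𝓝 0) := Lx_tendsto.comp (hP.comp hψ.tendsto_atTop)
  have hva : ∀ n, v n ∉ asub ι h := fun n => (hψ2 n).1
  have hvE : ∀ n, Ex (v n) = P (ψ n) := fun n => (hψ2 n).2
  -- a complement
  obtain ⟨𝔟, h𝔟⟩ := Submodule.exists_isCompl (asub ι h)
  set pr : mixedSpace K →ₗ[ℝ] mixedSpace K := 𝔟.subtype ∘ₗ Submodule.projectionOnto 𝔟 (asub ι h) h𝔟.symm
    with hpr
  have hprc : Continuous pr := pr.continuous_of_finiteDimensional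
  have hprm : ∀ x, pr x ∈ 𝔟 := fun x => (Submodule.projectionOnto 𝔟 (asub ι h) h𝔟.symm x).2
  have hprs : ∀ x, x - pr x ∈ asub ι h := by
    intro x
    have h1 : Submodule.projectionOnto 𝔟 (asub ι h) h𝔟.symm (x - pr x) = 0 := by
      rw [map_sub, sub_eq_zero]
      exact (Submodule.projectionOnto_apply_left h𝔟.symm
        (Submodule.projectionOnto 𝔟 (asub ι h) h𝔟.symm x)).symm
    exact (Submodule.projectionOnto_apply_eq_zero_iff h𝔟.symm).1 h1
  set b : ℕ → mixedSpace K := fun n => pr (v n) with hb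
  have hb0 : ∀ n, b n ≠ 0 := by
    intro n h0
    apply hva n
    have h1 := hprs (v n)
    have h2 : pr (v n) = 0 := h0
    rwa [h2, sub_zero] at h1
  have hblim : Tendsto b atTop (𝓝 0) := by
    have h1 := (hprc.tendsto 0).comp hvlim
    rwa [map_zero] at h1
  have hnb : ∀ n, 0 < nx (b n) := fun n => nx_pos (hb0 n)
  have hnblim : Tendsto (fun n => nx (b n)) atTop (𝓝 0) := by
    have h1 := (nx_continuous.tendsto 0).comp hblim
    rwa [nx_zero] at h1
  set y : ℕ → mixedSpace K := fun n => (nx (b n))⁻¹ • b n with hy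
  have hy1 : ∀ n, nx (y n) = 1 := by
    intro n
    simp only [hy]
    rw [nx_smul, abs_of_pos (inv_pos.2 (hnb n)), inv_mul_cancel₀ (hnb n).ne']
  obtain ⟨w, -, θ, hθ, hw⟩ := (isCompact_places (K := K) 1).tendsto_subseq (x := y)
    (fun n p => by rw [← hy1 n]; exact le_nx _ _)
  have hw1 : nx w = 1 := by
    refine tendsto_nhds_unique ((nx_continuous.tendsto w).comp hw) ?_
    refine tendsto_const_nhds.congr fun n => ?_
    exact (hy1 _).symm
  have hw𝔟 : w ∈ 𝔟 := by
    have hcl : IsClosed (𝔟 : Set (mixedSpace K)) := Submodule.closed_of_finiteDimensional 𝔟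
    refine hcl.mem_of_tendsto hw (Eventually.of_forall fun n => ?_)
    exact 𝔟.smul_mem _ (hprm _)
  have hwS : ∀ t : ℝ, 0 ≤ t → Ex (t • w) ∈ Sm ι M h := by
    intro t ht
    set k : ℕ → ℕ := fun n => ⌊t * (nx (b (θ n)))⁻¹⌋₊ with hk
    have h1 : Tendsto (fun n => (k n : ℝ) * nx (b (θ n))) atTop (𝓝 t) := by
      have h2 : Tendsto (fun n => (nx (b (θ n)))⁻¹) atTop atTop := by
        refine Tendsto.inv_tendsto_nhdsGT_zero ?_
        refine tendsto_nhdsWithin_iff.2 ⟨hnblim.comp hθ.tendsto_atTop,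
          Eventually.of_forall fun n => hnb _⟩
      have h3 := (tendsto_nat_floor_mul_div_atTop ht).comp h2
      refine h3.congr fun n => ?_
      simp only [Function.comp, hk]
      rw [div_inv_eq_mul]
    have h2 : Tendsto (fun n => Ex ((k n : ℝ) • b (θ n))) atTop (𝓝 (Ex (t • w))) := by
      have h3 := (Ex_continuous.tendsto _).comp (h1.smul hw)
      refine h3.congr fun n => ?_
      simp only [Function.comp, hy]
      rw [smul_smul, mul_assoc, mul_inv_cancel₀ (hnb _).ne', mul_one]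
    refine Sm_closed hd hV hMdet hMc (fun n => ?_) h2 ?_
    · -- the elements lie in the set
      have h3 : Ex ((k n : ℝ) • b (θ n)) =
          Ex (-((k n : ℝ) • (v (θ n) - b (θ n)))) * P (ψ (θ n)) ^ k n := by
        rw [← hvE, ← Ex_nsmul, ← Ex_add]
        congr 1
        rw [smul_sub]
        abel
      rw [h3]
      refine hPS _ _ _ (Pd_of_asub hdet ?_)
      exact (asub ι h).neg_mem ((asub ι h).smul_mem _ (hprs _))
    · rw [det_mul]
      exact mul_ne_zero hdet (det_Ex _)
  have hwa : w ∈ asub ι h := fun t => hline w hwS t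
  have hw0 : w = 0 := by
    have h1 : w ∈ asub ι h ⊓ 𝔟 := ⟨hwa, hw𝔟⟩
    rwa [h𝔟.inf_eq_bot, Submodule.mem_bot] at h1
  rw [hw0, nx_zero] at hw1
  exact zero_ne_one hw1

/-- **Rigidity.** -/
theorem rigid' (hd : 0 < d) (ι : K →+* Module.End ℚ (Fin d → ℚ)) {V : ℝ} (hV : 0 < V)
    {M : Set (Matrix (Fin d) (Fin d) ℝ)} (hMdet : ∀ h ∈ M, |h.det| = V)
    (hMc : IsClosed M) (hMinv : InvB id M)
    {h : Matrix (Fin d) (Fin d) ℝ} (hh : h ∈ M)
    (hline : ∀ w : mixedSpace K, (∀ t : ℝ, 0 ≤ t → Ex (t • w) ∈ Sm ι M h) →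
      ∀ t : ℝ, ∃ a : Fin d → ℝ, h * jhom ι (Ex (t • w)) = diagonal a * h) (w₁ : {w : InfinitePlace K // w.IsReal})
    (he : ∃ a : Fin d → ℝ, h * jhom ι (ech w₁) = diagonal a * h) (x : K) :
    ∃ a : Fin d → ℝ, h * kap (ι x) = diagonal a * h := by
  classical
  have hdet : h.det ≠ 0 := by
    intro h0
    have := hMdet h hh
    rw [h0, abs_zero] at this
    exact hV.ne this
  have hu : IsUnit h.det := isUnit_iff_ne_zero.2 hdet
  obtain ⟨e, he⟩ := he
  -- the entries are zero or one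
  have he01 : ∀ i, e i = 0 ∨ e i = 1 := by
    intro i
    have h1 : (diagonal (fun i => e i * e i) : Matrix (Fin d) (Fin d) ℝ) * h = diagonal e * h := by
      calc (diagonal (fun i => e i * e i) : Matrix (Fin d) (Fin d) ℝ) * h
          = diagonal e * (diagonal e * h) := by rw [← Matrix.mul_assoc, diagonal_mul_diagonal]
        _ = diagonal e * (h * jhom ι (ech w₁)) := by rw [he]
        _ = (diagonal e * h) * jhom ι (ech w₁) := by rw [Matrix.mul_assoc]
        _ = (h * jhom ι (ech w₁)) * jhom ι (ech w₁) := by rw [he]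
        _ = h * jhom ι (ech w₁ * ech w₁) := by rw [map_mul, Matrix.mul_assoc]
        _ = _ := by rw [ech_mul_self, he]
    have h2 := congrArg (fun m => m * h⁻¹) h1
    simp only [Matrix.mul_assoc] at h2
    rw [Matrix.mul_nonsing_inv _ hu, Matrix.mul_one, Matrix.mul_one] at h2
    have h3 := congrFun (congrFun h2 i) i
    rw [diagonal_apply_eq, diagonal_apply_eq] at h3
    have h4 : e i * (e i - 1) = 0 := by linear_combination h3
    rcases mul_eq_zero.1 h4 with h5 | h5
    · exact Or.inl h5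
    · exact Or.inr (by linarith)
  set f : ℝ := (Module.finrank ℚ K : ℝ) - 1 with hf
  have hf0 : 0 ≤ f := by
    have h1 : 0 < Module.finrank ℚ K := Module.finrank_pos
    have h2 : (1 : ℝ) ≤ Module.finrank ℚ K := by exact_mod_cast h1
    rw [hf]; linarith
  have hzc : ∀ t : ℝ, zc w₁ t ∈ Pd ι h := by
    intro t
    refine ⟨fun i => Real.exp (f * t) * e i + Real.exp (-t) * (1 - e i), fun i => ?_, ?_⟩
    · dsimp only
      rcases he01 i with h1 | h1
      · rw [h1, mul_zero, zero_add, sub_zero, mul_one]; exact Real.exp_pos _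
      · rw [h1, mul_one, sub_self, mul_zero, add_zero]; exact Real.exp_pos _
    · rw [zc, map_add, map_smul, map_smul, map_sub, map_one, Matrix.mul_add, Matrix.mul_smul,
        Matrix.mul_smul, Matrix.mul_sub, Matrix.mul_one, he]
      ext i j
      simp only [Matrix.add_apply, Matrix.smul_apply, Matrix.sub_apply, diagonal_mul, smul_eq_mul]
      rw [← hf]
      ring
  obtain ⟨N, hN, hact⟩ := exists_pow_int ι
  obtain ⟨v, t, ht, hlim⟩ := exists_near_one w₁ hN
  set P : ℕ → mixedSpace K := fun n =>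
    zc w₁ (t n) * mixedEmbedding K ((((v n) ^ N : (𝓞 K)ˣ) : 𝓞 K) : K) with hP
  have hPS : ∀ (n k : ℕ) (c : mixedSpace K), c ∈ Pd ι h → c * P n ^ k ∈ Sm ι M h := by
    intro n k c hc
    obtain ⟨γ, hγ, hγ2⟩ := hact (v n ^ k)
    have h1 : P n ^ k = zc w₁ (t n) ^ k *
        mixedEmbedding K (((((v n) ^ k) ^ N : (𝓞 K)ˣ) : 𝓞 K) : K) := by
      have h2 : (((((v n) ^ k) ^ N : (𝓞 K)ˣ) : 𝓞 K) : K) =
          ((((v n) ^ N : (𝓞 K)ˣ) : 𝓞 K) : K) ^ k := by
        rw [← pow_mul, mul_comm, pow_mul, Units.val_pow_eq_pow_val]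
        rfl
      rw [h2, map_pow, ← mul_pow]
    rw [h1, ← mul_assoc]
    refine Sm_of_Pd hd hMinv hh (Pd_mul hc (Pd_pow (hzc _) k)) hγ ?_
    rw [jhom_emb]
    exact hγ2
  have hev := asub_of_return' hd hV hMdet hMc hh hline hlim hPS
  -- the absolute values of the units
  have hpl : ∀ w : InfinitePlace K, ∀ᶠ n in atTop,
      1 / 2 < normAtPlace w (P n) ∧ normAtPlace w (P n) < 2 := by
    intro w
    have h1 := ((continuous_normAtPlace w).tendsto 1).comp hlim
    rw [map_one] at h1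
    exact h1.eventually (Ioo_mem_nhds (by norm_num) (by norm_num))
  have hpl' : ∀ᶠ n in atTop, ∀ w : InfinitePlace K,
      1 / 2 < normAtPlace w (P n) ∧ normAtPlace w (P n) < 2 := Filter.eventually_all.2 hpl
  obtain ⟨n, hn1, hn2, hn3⟩ := (hev.and (hpl'.and (ht.eventually_ge_atTop 4))).exists
  set ε : K := ((((v n) ^ N : (𝓞 K)ˣ) : 𝓞 K) : K) with hε
  have hnorm : ∀ w : InfinitePlace K, normAtPlace w (P n) =
      Real.exp (if w = w₁.1 then f * t n else -(t n)) * w ε := by
    intro w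
    simp only [hP]
    rw [map_mul, normAtPlace_apply, normAtPlace_zc]
  have hw1 : w₁.1 ε < 2 := by
    have h1 := (hn2 w₁.1).2
    rw [hnorm, if_pos rfl] at h1
    have h2 : (1 : ℝ) ≤ Real.exp (f * t n) := Real.one_le_exp (mul_nonneg hf0 (by linarith))
    have h3 : 0 ≤ w₁.1 ε := apply_nonneg _ _
    nlinarith
  have hw2 : ∀ w : InfinitePlace K, w ≠ w₁.1 → 2 < w ε := by
    intro w hw
    have h1 := (hn2 w).1
    rw [hnorm, if_neg hw, Real.exp_neg] at h1
    have h2 : (5 : ℝ) ≤ Real.exp (t n) := by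
      have := Real.add_one_le_exp (t n)
      linarith
    have h3 : 0 < Real.exp (t n) := Real.exp_pos _
    rw [inv_mul_eq_div, lt_div_iff₀ h3] at h1
    linarith
  -- the unit generates the field
  have hprim : IntermediateField.adjoin ℚ {ε} = ⊤ := by
    have hsplit : ∀ x : K, ((minpoly ℚ x).map (algebraMap ℚ ℂ)).Splits := fun x =>
      IsAlgClosed.splits _
    set φ₁ : K →ₐ[ℚ] ℂ := (w₁.1.embedding).toRatAlgHom with hφ₁
    refine (Field.primitive_element_iff_algHom_eq_of_eval ℚ ℂ hsplit ε φ₁).2 ?_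
    intro ψ hψ
    have h1 : InfinitePlace.mk (ψ : K →+* ℂ) = w₁.1 := by
      by_contra hne
      have h2 := hw2 _ hne
      rw [InfinitePlace.apply] at h2
      have h3 : w₁.1 ε = ‖(ψ : K →+* ℂ) ε‖ := by
        rw [← InfinitePlace.norm_embedding_eq w₁.1]
        exact congrArg _ hψ
      rw [← h3] at h2
      linarith
    have h3 : ComplexEmbedding.IsReal (ψ : K →+* ℂ) := by
      rw [← InfinitePlace.isReal_mk_iff, h1]
      exact w₁.2
    have h2 : w₁.1.embedding = (ψ : K →+* ℂ) := by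
      rw [← h1]
      exact InfinitePlace.embedding_mk_eq_of_isReal h3
    refine AlgHom.ext fun z => ?_
    exact congrFun (congrArg DFunLike.coe h2) z
  -- the diagonalised elements form an algebra
  set L : Subalgebra ℚ K :=
    { carrier := {x | ∃ a : Fin d → ℝ, h * kap (ι x) = diagonal a * h}
      mul_mem' := by
        rintro x y ⟨a, ha⟩ ⟨b, hb⟩
        refine ⟨fun i => a i * b i, ?_⟩
        rw [map_mul, map_mul, ← Matrix.mul_assoc, ha, Matrix.mul_assoc, hb, ← Matrix.mul_assoc,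
          diagonal_mul_diagonal]
      add_mem' := by
        rintro x y ⟨a, ha⟩ ⟨b, hb⟩
        refine ⟨fun i => a i + b i, ?_⟩
        rw [map_add, map_add, Matrix.mul_add, ha, hb, ← Matrix.add_mul, diagonal_add]
      algebraMap_mem' := by
        intro q
        refine ⟨fun _ => (q : ℝ), ?_⟩
        have h1 : kap (ι (algebraMap ℚ K q)) = (q : ℝ) • (1 : Matrix (Fin d) (Fin d) ℝ) := by
          rw [Algebra.algebraMap_eq_smul_one, map_rat_smul, kap_smul, map_one, map_one]
        rw [h1, Matrix.mul_smul, Matrix.mul_one]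
        ext i j
        rw [diagonal_mul, Matrix.smul_apply, smul_eq_mul] } with hL
  have hεL : ε ∈ L := by
    obtain ⟨a, ha, hPa⟩ := hn1
    obtain ⟨b, hb, hzb⟩ := hzc (-(t n))
    refine ⟨fun i => a i * b i, ?_⟩
    have h1 : mixedEmbedding K ε = P n * zc w₁ (-(t n)) := by
      simp only [hP]
      rw [mul_right_comm, ← zc_add, add_neg_cancel, zc_zero, one_mul]
    rw [← jhom_emb, h1, map_mul, ← Matrix.mul_assoc, hPa, Matrix.mul_assoc, hzb,
      ← Matrix.mul_assoc, diagonal_mul_diagonal]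
  have hx : x ∈ IntermediateField.adjoin ℚ {ε} := by rw [hprim]; trivial
  have hx' : x ∈ Algebra.adjoin ℚ {ε} := by
    rw [← IntermediateField.adjoin_simple_toSubalgebra_of_isAlgebraic
      (Algebra.IsAlgebraic.isAlgebraic ε)]
    exact hx
  have hle : Algebra.adjoin ℚ {ε} ≤ L := Algebra.adjoin_le (by
    intro y hy
    rw [Set.mem_singleton_iff] at hy
    rw [hy]
    exact hεL)
  exact hle hx'

end Pool.Agent.V7H90.Iso
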