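import Mathlib
import Pool.Agent.Y327.Root
import Pool.Agent.V7H90.Iso.Orbit

/-! # The rational symmetries along an orbit closure -/

open Filter Topology Matrix NumberField

set_option linter.unusedSectionVars false

namespace Pool.Agent.V7H90.Iso

open H715R2 Pool.Agent.Y327 RatSpan

variable {d : ℕ}

/-- a rational matrix as a real matrix -/
def rR (σ : Matrix (Fin d) (Fin d) ℚ) : Matrix (Fin d) (Fin d) ℝ := σ.map (fun q : ℚ => (q : ℝ))

/-- an integral matrix as a rational matrix -/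
def gq (γ : Matrix (Fin d) (Fin d) ℤ) : Matrix (Fin d) (Fin d) ℚ := γ.map (Int.cast : ℤ → ℚ)

lemma rR_mul (σ τ : Matrix (Fin d) (Fin d) ℚ) : rR (σ * τ) = rR σ * rR τ := by
  exact (algebraMap ℚ ℝ).mapMatrix.map_mul σ τ

lemma rR_add (σ τ : Matrix (Fin d) (Fin d) ℚ) : rR (σ + τ) = rR σ + rR τ := by
  ext i j
  simp [rR]

lemma rR_smul (q : ℚ) (σ : Matrix (Fin d) (Fin d) ℚ) : rR (q • σ) = (q : ℝ) • rR σ := by
  ext i j
  simp [rR]

lemma rR_one : rR (1 : Matrix (Fin d) (Fin d) ℚ) = 1 := by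
  ext i j
  by_cases h : i = j
  · subst h; simp [rR]
  · simp [rR, Matrix.one_apply_ne h]

lemma rR_inj {σ τ : Matrix (Fin d) (Fin d) ℚ} (h : rR σ = rR τ) : σ = τ := by
  ext i j
  have := congrFun (congrFun h i) j
  simpa [rR] using this

lemma rR_gq (γ : Matrix (Fin d) (Fin d) ℤ) : rR (gq γ) = zR γ := by
  ext i j
  simp [rR, gq, zR]

lemma gq_mul (γ δ : Matrix (Fin d) (Fin d) ℤ) : gq (γ * δ) = gq γ * gq δ := by
  have := (Int.castRingHom ℚ).mapMatrix.map_mul γ δ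
  simpa [gq] using this

lemma gq_one : gq (1 : Matrix (Fin d) (Fin d) ℤ) = 1 := by
  simp [gq]

lemma gq_inv {γ : Matrix (Fin d) (Fin d) ℤ} (h : IsUnit γ.det) : gq γ * gq γ⁻¹ = 1 := by
  rw [← gq_mul, Matrix.mul_nonsing_inv _ h, gq_one]

lemma gq_inv' {γ : Matrix (Fin d) (Fin d) ℤ} (h : IsUnit γ.det) : gq γ⁻¹ * gq γ = 1 := by
  rw [← gq_mul, Matrix.nonsing_inv_mul _ h, gq_one]

lemma kap_lin (σ : Matrix (Fin d) (Fin d) ℚ) : kap (Matrix.toLin' σ) = rR σ := kap_toLin' σ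

/-- the rational matrices which the given real matrix makes diagonal -/
def Sy (h : Matrix (Fin d) (Fin d) ℝ) : Subalgebra ℚ (Matrix (Fin d) (Fin d) ℚ) where
  carrier := {σ | ∃ a : Fin d → ℝ, h * rR σ = diagonal a * h}
  mul_mem' := by
    rintro σ τ ⟨a, ha⟩ ⟨b, hb⟩
    refine ⟨fun i => a i * b i, ?_⟩
    rw [rR_mul, ← Matrix.mul_assoc, ha, Matrix.mul_assoc, hb, ← Matrix.mul_assoc,
      diagonal_mul_diagonal]
  add_mem' := by
    rintro σ τ ⟨a, ha⟩ ⟨b, hb⟩
    refine ⟨fun i => a i + b i, ?_⟩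
    rw [rR_add, Matrix.mul_add, ha, hb, ← Matrix.add_mul, diagonal_add]
  algebraMap_mem' := by
    intro q
    refine ⟨fun _ => (q : ℝ), ?_⟩
    rw [Algebra.algebraMap_eq_smul_one, rR_smul, rR_one, Matrix.mul_smul, Matrix.mul_one]
    ext i j
    rw [diagonal_mul, Matrix.smul_apply, smul_eq_mul]

lemma mem_Sy {h : Matrix (Fin d) (Fin d) ℝ} {σ : Matrix (Fin d) (Fin d) ℚ} :
    σ ∈ Sy h ↔ ∃ a : Fin d → ℝ, h * rR σ = diagonal a * h := Iff.rfl

lemma Sy_iff {h : Matrix (Fin d) (Fin d) ℝ} (hu : IsUnit h.det) {σ : Matrix (Fin d) (Fin d) ℚ} :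
    σ ∈ Sy h ↔ Matrix.toLin' σ ∈ symA h hu := by
  rw [mem_symA, mem_Sy]
  constructor
  · rintro ⟨a, ha⟩ i j hij
    rw [← kap_lin] at ha
    rw [eig_of_eq hu ha, diagonal_apply_ne _ hij]
  · intro h1
    exact ⟨_, by rw [← kap_lin]; exact (dg_iff hu).1 h1⟩

/-- the two algebras have the same dimension -/
lemma finrank_Sy {h : Matrix (Fin d) (Fin d) ℝ} (hu : IsUnit h.det) :
    Module.finrank ℚ (Sy h) = Module.finrank ℚ (symA h hu) := by
  let e : Sy h ≃ₗ[ℚ] symA h hu :=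
    { toFun := fun σ => ⟨Matrix.toLin' σ.1, (Sy_iff hu).1 σ.2⟩
      invFun := fun f => ⟨LinearMap.toMatrix' f.1, (Sy_iff hu).2 (by
        rw [Matrix.toLin'_toMatrix']; exact f.2)⟩
      map_add' := fun σ τ => Subtype.ext (by simp)
      map_smul' := fun q σ => Subtype.ext (by simp)
      left_inv := fun σ => Subtype.ext (by simp)
      right_inv := fun f => Subtype.ext (by simp) }
  exact e.finrank_eq

/-- conjugation by an integral matrix -/
noncomputable def cj (γ : Matrix (Fin d) (Fin d) ℤ) :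
    Matrix (Fin d) (Fin d) ℚ →ₗ[ℚ] Matrix (Fin d) (Fin d) ℚ where
  toFun σ := gq γ⁻¹ * σ * gq γ
  map_add' σ τ := by rw [Matrix.mul_add, Matrix.add_mul]
  map_smul' q σ := by rw [Matrix.mul_smul, Matrix.smul_mul, RingHom.id_apply]

lemma cj_apply (γ : Matrix (Fin d) (Fin d) ℤ) (σ : Matrix (Fin d) (Fin d) ℚ) :
    cj γ σ = gq γ⁻¹ * σ * gq γ := rfl

lemma cj_mem {a : Fin d → ℝ} (ha : |∏ i, a i| = 1) {g : Matrix (Fin d) (Fin d) ℝ}
    {γ : Matrix (Fin d) (Fin d) ℤ} (hγ : IsUnit γ.det) (σ : Matrix (Fin d) (Fin d) ℚ) :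
    cj γ σ ∈ Sy (diagonal a * g * zR γ) ↔ σ ∈ Sy g := by
  have ha0 : ∀ i, a i ≠ 0 := by
    intro i h0
    rw [Finset.prod_eq_zero (Finset.mem_univ i) h0, abs_zero] at ha
    exact zero_ne_one ha
  have hinv : (diagonal (fun i => (a i)⁻¹) : Matrix (Fin d) (Fin d) ℝ) * diagonal a = 1 := by
    rw [diagonal_mul_diagonal]
    have : (fun i => (a i)⁻¹ * a i) = fun _ => (1 : ℝ) := by
      funext i
      exact inv_mul_cancel₀ (ha0 i)
    rw [this, diagonal_one]
  have hconj : zR γ * rR (cj γ σ) = rR σ * zR γ := by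
    rw [← rR_gq, ← rR_mul, ← rR_mul, cj_apply, ← Matrix.mul_assoc, ← Matrix.mul_assoc,
      gq_inv hγ, Matrix.one_mul]
  have hcomm : ∀ b : Fin d → ℝ, (diagonal a : Matrix (Fin d) (Fin d) ℝ) * diagonal b =
      diagonal b * diagonal a := by
    intro b
    rw [diagonal_mul_diagonal, diagonal_mul_diagonal]
    congr 1
    funext i
    rw [mul_comm]
  constructor
  · rintro ⟨b, hb⟩
    refine ⟨b, ?_⟩
    rw [Matrix.mul_assoc, hconj] at hb
    calc g * rR σ = ((diagonal (fun i => (a i)⁻¹)) * diagonal a) * g * rR σ *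
          (zR γ * zR γ⁻¹) := by rw [hinv, zR_inv hγ, Matrix.one_mul, Matrix.mul_one]
      _ = (diagonal (fun i => (a i)⁻¹)) * (diagonal a * g * (rR σ * zR γ)) * zR γ⁻¹ := by
          simp only [Matrix.mul_assoc]
      _ = (diagonal (fun i => (a i)⁻¹)) * (diagonal b * (diagonal a * g * zR γ)) * zR γ⁻¹ := by
          rw [hb]
      _ = (diagonal (fun i => (a i)⁻¹)) * (diagonal b * diagonal a) * g * (zR γ * zR γ⁻¹) := by
          simp only [Matrix.mul_assoc]
      _ = ((diagonal (fun i => (a i)⁻¹)) * diagonal a) * diagonal b * g := by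
          rw [← hcomm, zR_inv hγ, Matrix.mul_one]
          simp only [Matrix.mul_assoc]
      _ = _ := by rw [hinv, Matrix.one_mul]
  · rintro ⟨b, hb⟩
    refine ⟨b, ?_⟩
    calc diagonal a * g * zR γ * rR (cj γ σ) = diagonal a * (g * rR σ) * zR γ := by
          rw [Matrix.mul_assoc, hconj]
          simp only [Matrix.mul_assoc]
      _ = (diagonal a * diagonal b) * g * zR γ := by
          rw [hb]
          simp only [Matrix.mul_assoc]
      _ = _ := by
          rw [hcomm]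
          simp only [Matrix.mul_assoc]

/-- **Symmetries pass to the limit.** -/
theorem sym_limit {g h : Matrix (Fin d) (Fin d) ℝ} (hu : h.det ≠ 0) {a : ℕ → Fin d → ℝ}
    {γ : ℕ → Matrix (Fin d) (Fin d) ℤ} (hγ : ∀ n, IsUnit (γ n).det)
    (hlim : Tendsto (fun n => diagonal (a n) * g * zR (γ n)) atTop (𝓝 h))
    {σ : Matrix (Fin d) (Fin d) ℚ} (hσ : σ ∈ Sy g) : ∀ᶠ n in atTop, cj (γ n) σ ∈ Sy h := by
  obtain ⟨k, hk, σz, hσz⟩ := exists_int_scale (Matrix.toLin' σ)
  rw [kap_lin] at hσz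
  obtain ⟨D, hD⟩ := hσ
  have hk' : ((k : ℤ) : ℝ) ≠ 0 := by exact_mod_cast hk.ne'
  have hgz : g * zR σz = diagonal (fun i => (k : ℝ) * D i) * g := by
    rw [← hσz, Matrix.mul_smul, hD]
    ext i j
    rw [Matrix.smul_apply, diagonal_mul, diagonal_mul, smul_eq_mul]
    ring
  set gs : ℕ → Matrix (Fin d) (Fin d) ℝ := fun n => diagonal (a n) * g * zR (γ n) with hgs
  set σn : ℕ → Matrix (Fin d) (Fin d) ℤ := fun n => (γ n)⁻¹ * σz * γ n with hσn
  have h1 : ∀ n, gs n * zR (σn n) = diagonal (fun i => (k : ℝ) * D i) * gs n := by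
    intro n
    have h2 : γ n * ((γ n)⁻¹ * σz * γ n) = σz * γ n := by
      rw [← Matrix.mul_assoc, ← Matrix.mul_assoc, Matrix.mul_nonsing_inv _ (hγ n), Matrix.one_mul]
    calc gs n * zR (σn n) = diagonal (a n) * g * (zR (γ n) * zR (σn n)) := by
          simp only [hgs, Matrix.mul_assoc]
      _ = diagonal (a n) * (g * zR σz) * zR (γ n) := by
          rw [← zR_mul, hσn]
          simp only
          rw [h2, zR_mul]
          simp only [Matrix.mul_assoc]
      _ = (diagonal (a n) * diagonal (fun i => (k : ℝ) * D i)) * g * zR (γ n) := by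
          rw [hgz]
          simp only [Matrix.mul_assoc]
      _ = (diagonal (fun i => (k : ℝ) * D i) * diagonal (a n)) * g * zR (γ n) := by
          rw [diagonal_mul_diagonal, diagonal_mul_diagonal]
          congr 3
          funext i
          rw [mul_comm]
      _ = _ := by simp only [hgs, Matrix.mul_assoc]
  have hdet : ∀ᶠ n in atTop, IsUnit (gs n).det := by
    have h2 : Tendsto (fun n => (gs n).det) atTop (𝓝 h.det) :=
      ((Continuous.matrix_det continuous_id).tendsto h).comp hlim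
    exact (h2.eventually_ne hu).mono fun n hn => isUnit_iff_ne_zero.2 hn
  have h2 : ∀ᶠ n in atTop, zR (σn n) = (gs n)⁻¹ * (diagonal (fun i => (k : ℝ) * D i) * gs n) := by
    filter_upwards [hdet] with n hn
    rw [← h1, ← Matrix.mul_assoc, Matrix.nonsing_inv_mul _ hn, Matrix.one_mul]
  have h3 : Tendsto (fun n => zR (σn n)) atTop
      (𝓝 (h⁻¹ * (diagonal (fun i => (k : ℝ) * D i) * h))) := by
    have h4 := (tendsto_inv_mat hlim hu).mul
      ((tendsto_const_nhds (x := diagonal (fun i => (k : ℝ) * D i))).mul hlim)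
    exact h4.congr' (h2.mono fun n hn => hn.symm)
  -- the limit is integral
  have h4 : ∀ p q, ∃ z : ℤ, (z : ℝ) = (h⁻¹ * (diagonal (fun i => (k : ℝ) * D i) * h)) p q := by
    intro p q
    have h5 : Tendsto (fun n => ((σn n p q : ℤ) : ℝ)) atTop
        (𝓝 ((h⁻¹ * (diagonal (fun i => (k : ℝ) * D i) * h)) p q)) :=
      ((continuous_apply_apply p q).tendsto _).comp h3
    exact Int.isClosedEmbedding_coe_real.isClosed_range.mem_of_tendsto h5
      (Eventually.of_forall fun n => ⟨_, rfl⟩)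
  choose z hz using h4
  set σ' : Matrix (Fin d) (Fin d) ℤ := fun p q => z p q with hσ'
  have h5 : zR σ' = h⁻¹ * (diagonal (fun i => (k : ℝ) * D i) * h) := by
    ext p q
    exact hz p q
  rw [← h5] at h3
  have h6 : ∀ᶠ n in atTop, ∀ p q, |zR (σn n) p q - zR σ' p q| < 1 := by
    rw [Filter.eventually_all]
    intro p
    rw [Filter.eventually_all]
    intro q
    have h7 : Tendsto (fun n => |zR (σn n) p q - zR σ' p q|) atTop (𝓝 0) := by
      have h8 : Tendsto (fun n => zR (σn n) p q) atTop (𝓝 (zR σ' p q)) :=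
        ((continuous_apply_apply p q).tendsto _).comp h3
      have h9 := (h8.sub_const (zR σ' p q)).abs
      rwa [sub_self, abs_zero] at h9
    exact h7.eventually (gt_mem_nhds one_pos)
  filter_upwards [h6] with n hn
  have h7 : σn n = σ' := by
    ext p q
    have h8 := hn p q
    have h9 : |((σn n p q - σ' p q : ℤ) : ℝ)| < 1 := by
      push_cast
      exact h8
    have h10 : |σn n p q - σ' p q| < 1 := by exact_mod_cast h9
    have h11 := Int.abs_lt_one_iff.1 h10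
    omega
  -- the conjugate
  have h8 : ((k : ℤ) : ℝ) • rR (cj (γ n) σ) = zR σ' := by
    rw [← h7, hσn]
    simp only
    rw [zR_mul, zR_mul, ← hσz, cj_apply, rR_mul, rR_mul, rR_gq, rR_gq, Matrix.mul_smul,
      Matrix.smul_mul]
  refine ⟨D, ?_⟩
  have h9 : h * zR σ' = diagonal (fun i => (k : ℝ) * D i) * h := by
    rw [h5, ← Matrix.mul_assoc, Matrix.mul_nonsing_inv _ (isUnit_iff_ne_zero.2 hu),
      Matrix.one_mul]
  rw [← h8, Matrix.mul_smul] at h9
  ext p q
  have h10 := congrFun (congrFun h9 p) q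
  rw [Matrix.smul_apply, diagonal_mul, smul_eq_mul, mul_assoc] at h10
  rw [diagonal_mul]
  exact mul_left_cancel₀ hk' h10

/-- all symmetries pass to the limit at the same time -/
theorem sym_limit_all {g h : Matrix (Fin d) (Fin d) ℝ} (hu : h.det ≠ 0) {a : ℕ → Fin d → ℝ}
    {γ : ℕ → Matrix (Fin d) (Fin d) ℤ} (hγ : ∀ n, IsUnit (γ n).det)
    (hlim : Tendsto (fun n => diagonal (a n) * g * zR (γ n)) atTop (𝓝 h)) :
    ∀ᶠ n in atTop, ∀ σ ∈ Sy g, cj (γ n) σ ∈ Sy h := by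
  obtain ⟨T, hT⟩ := (IsNoetherian.noetherian (Subalgebra.toSubmodule (Sy g)) :
    (Subalgebra.toSubmodule (Sy g)).FG)
  have h1 : ∀ᶠ n in atTop, ∀ σ ∈ T, cj (γ n) σ ∈ Sy h := by
    rw [Filter.eventually_all_finset]
    intro σ hσ
    refine sym_limit hu hγ hlim ?_
    have h2 : σ ∈ Subalgebra.toSubmodule (Sy g) := by
      rw [← hT]
      exact Submodule.subset_span hσ
    exact h2
  filter_upwards [h1] with n hn σ hσ
  have h2 : Subalgebra.toSubmodule (Sy g) ≤ (Subalgebra.toSubmodule (Sy h)).comap (cj (γ n)) := by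
    rw [← hT, Submodule.span_le]
    exact fun σ hσ => hn σ hσ
  exact h2 hσ

lemma cj_inj {γ : Matrix (Fin d) (Fin d) ℤ} (hγ : IsUnit γ.det) : Function.Injective (cj γ) := by
  intro σ τ h
  simp only [cj_apply] at h
  calc σ = (gq γ * gq γ⁻¹) * σ * (gq γ * gq γ⁻¹) := by
        rw [gq_inv hγ, Matrix.one_mul, Matrix.mul_one]
    _ = gq γ * (gq γ⁻¹ * σ * gq γ) * gq γ⁻¹ := by simp only [Matrix.mul_assoc]
    _ = gq γ * (gq γ⁻¹ * τ * gq γ) * gq γ⁻¹ := by rw [h]
    _ = (gq γ * gq γ⁻¹) * τ * (gq γ * gq γ⁻¹) := by simp only [Matrix.mul_assoc]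
    _ = τ := by rw [gq_inv hγ, Matrix.one_mul, Matrix.mul_one]

/-- the real closure is invertible -/
lemma limit_unit {g h : Matrix (Fin d) (Fin d) ℝ} (hg : g.det ≠ 0)
    (hh : h ∈ closure (OrbS g)) : IsUnit h.det := by
  rw [isUnit_iff_ne_zero]
  intro h0
  have h1 := orbS_det hh
  rw [h0, abs_zero] at h1
  exact hg (abs_eq_zero.1 h1.symm)

/-- **Large fields of symmetries are isolated.** -/
theorem sym_back (hd : 0 < d) {g h : Matrix (Fin d) (Fin d) ℝ} (hg : g.det ≠ 0)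
    (hsm : ¬ Sml g) (hh : h ∈ closure (OrbS g)) (h3 : 3 ≤ Module.finrank ℚ (Sy h)) :
    ∀ᶠ m in 𝓝[closure (OrbS g)] h, ∀ σ ∈ Sy h, σ ∈ Sy m := by
  obtain ⟨ν, hν, hnu⟩ := hasNu_of_not_sml hsm
  have hu := limit_unit hg hh
  obtain ⟨K, _, _, ι, hι⟩ := exists_numberField (symA h hu)
    (symA_isField hd hν (orbS_nu hnu hh) hu)
  have : Nonempty (Fin d) := ⟨⟨0, hd⟩⟩
  have hinj : Function.Injective ι := ι.injective
  have hfr : Module.finrank ℚ K = Module.finrank ℚ (symA h hu) := by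
    have h1 := LinearEquiv.finrank_eq (LinearEquiv.ofInjective (ι.toRatAlgHom).toLinearMap hinj)
    rw [h1]
    have h2 : LinearMap.range (ι.toRatAlgHom).toLinearMap = Subalgebra.toSubmodule (symA h hu) := by
      ext f
      constructor
      · rintro ⟨x, hx⟩
        exact (hι f).2 ⟨x, hx⟩
      · intro hf
        obtain ⟨x, hx⟩ := (hι f).1 hf
        exact ⟨x, hx⟩
    rw [h2]
    rfl
  obtain ⟨ψ, hψ⟩ := exists_emb ι hu (fun x => ⟨_, (dg_iff hu).1 ((hι _).2 ⟨x, rfl⟩)⟩)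
  have hk : 3 ≤ Module.finrank ℚ K := by rwa [hfr, ← finrank_Sy hu]
  have h1 := isolated hd hk hν (fun h hh => orbS_nu hnu hh) isClosed_closure (orbS_inv g) hu hψ
  filter_upwards [h1] with m hm σ hσ
  obtain ⟨x, hx⟩ := (hι _).1 ((Sy_iff hu).1 hσ)
  refine ⟨fun i => ψ i x, ?_⟩
  rw [← kap_lin, ← hx]
  exact hm x

/-- a field acting diagonally consists of symmetries -/
lemma finrank_le_Sy (hd : 0 < d) {K : Type*} [Field K] [NumberField K]
    {ι : K →+* Module.End ℚ (Fin d → ℚ)} {ψ : Fin d → K →+* ℝ} {h : Matrix (Fin d) (Fin d) ℝ}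
    (hu : IsUnit h.det) (hψ : Act ι ψ h) : Module.finrank ℚ K ≤ Module.finrank ℚ (Sy h) := by
  have : Nonempty (Fin d) := ⟨⟨0, hd⟩⟩
  rw [finrank_Sy hu]
  have hmem : ∀ x, ι x ∈ symA h hu := by
    intro x
    rw [mem_symA]
    intro i j hij
    rw [eig_of_eq hu (hψ x), diagonal_apply_ne _ hij]
  have hinj : Function.Injective (ι.toRatAlgHom).toLinearMap := ι.injective
  have hle : LinearMap.range (ι.toRatAlgHom).toLinearMap ≤ Subalgebra.toSubmodule (symA h hu) := by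
    rintro f ⟨x, hx⟩
    rw [← hx]
    exact hmem x
  have h1 := LinearEquiv.finrank_eq (LinearEquiv.ofInjective (ι.toRatAlgHom).toLinearMap hinj)
  rw [h1]
  exact Submodule.finrank_mono hle

/-- **Constancy.** -/
theorem constancy (hd : 0 < d) {g h : Matrix (Fin d) (Fin d) ℝ} (hg : g.det ≠ 0)
    (hsm : ¬ Sml g) {a : ℕ → Fin d → ℝ}
    {γ : ℕ → Matrix (Fin d) (Fin d) ℤ} (ha : ∀ n, |∏ i, a n i| = 1) (hγ : ∀ n, IsUnit (γ n).det)
    (hlim : Tendsto (fun n => diagonal (a n) * g * zR (γ n)) atTop (𝓝 h)) :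
    (∀ᶠ n in atTop, ∀ σ, cj (γ n) σ ∈ Sy h ↔ σ ∈ Sy g) ∨
      (Module.finrank ℚ (Sy g) = 1 ∧ Module.finrank ℚ (Sy h) = 2) := by
  have : Nonempty (Fin d) := ⟨⟨0, hd⟩⟩
  have hhM : h ∈ closure (OrbS g) := mem_closure_of_tendsto hlim
    (Eventually.of_forall fun n => ⟨a n, γ n, ha n, hγ n, rfl⟩)
  have hu := limit_unit hg hhM
  have hA := sym_limit_all (isUnit_iff_ne_zero.1 hu) hγ hlim
  have hpos : 0 < Module.finrank ℚ (Sy g) := Module.finrank_pos
  by_cases hle : Module.finrank ℚ (Sy h) ≤ Module.finrank ℚ (Sy g)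
  · left
    filter_upwards [hA] with n hn σ
    refine ⟨fun hσ => ?_, hn σ⟩
    have h1 : (Subalgebra.toSubmodule (Sy g)).map (cj (γ n)) = Subalgebra.toSubmodule (Sy h) := by
      refine Submodule.eq_of_le_of_finrank_le ?_ ?_
      · rintro _ ⟨τ, hτ, rfl⟩
        exact hn τ hτ
      · have h3 := (Submodule.equivMapOfInjective (cj (γ n)) (cj_inj (hγ n))
          (Subalgebra.toSubmodule (Sy g))).finrank_eq
        rw [← h3]
        exact hle
    have h2 : cj (γ n) σ ∈ Subalgebra.toSubmodule (Sy h) := hσ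
    rw [← h1] at h2
    obtain ⟨τ, hτ, hτσ⟩ := h2
    rw [← cj_inj (hγ n) hτσ]
    exact hτ
  · push Not at hle
    by_cases h3 : 3 ≤ Module.finrank ℚ (Sy h)
    · left
      have h1 := sym_back hd hg hsm hhM h3
      have h2 : Tendsto (fun n => diagonal (a n) * g * zR (γ n)) atTop
          (𝓝[closure (OrbS g)] h) := tendsto_nhdsWithin_iff.2 ⟨hlim,
        Eventually.of_forall fun n => subset_closure ⟨a n, γ n, ha n, hγ n, rfl⟩⟩
      filter_upwards [h2.eventually h1, hA] with n hn hn2 σ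
      exact ⟨fun hσ => (cj_mem (ha n) (hγ n) σ).1 (hn _ hσ), hn2 σ⟩
    · right
      omega

end Pool.Agent.V7H90.Iso
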