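import Mathlib
import Pool.Agent.V7H90.Iso.RigidB
import Pool.Agent.V7H90.Iso.Sym

/-! # Rows over a number field: structure or dense values -/

open Filter Topology Matrix NumberField NumberField.mixedEmbedding

set_option linter.unusedSectionVars false

namespace Pool.Agent.V7H90.Iso

open H715R2 Pool.Agent.Y327 RatSpan

variable {K : Type*} [Field K] [NumberField K] {d s : ℕ}

/-- **Enough rows in one eigenspace.** -/
theorem act_of_rows_dense (hd : 0 < d) (hk : 3 ≤ Module.finrank ℚ K)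
    (ι : K →+* Module.End ℚ (Fin d → ℚ)) {g : Matrix (Fin d) (Fin d) ℝ} (hg : g.det ≠ 0)
    (hVV : VV g ≠ Set.univ)
    {h : Matrix (Fin d) (Fin d) ℝ} (hh : h ∈ closure (Orb g)) (φ : K →+* ℝ) (S : Finset (Fin d))
    (hS : S.card * Module.finrank ℚ K = d)
    (hrow : ∀ i ∈ S, ∀ x, h i ᵥ* kap (ι x) = φ x • h i) :
    ∃ ψ : Fin d → K →+* ℝ, Act ι ψ h := by
  have hinv : InvB id (closure (Orb g)) := fun h hh a γ ha hγ => closure_mul hh ha.1 ha.2.1 hγ
  have hu : ∀ h ∈ closure (Orb g), IsUnit h.det := by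
    intro h hh
    rw [isUnit_iff_ne_zero]
    intro h0
    have := abs_det_closure hh
    rw [h0, abs_zero] at this
    exact hg (abs_eq_zero.1 this.symm)
  obtain ⟨h', a, v, γ, hh', he, ha, hγ, hγ2, hlim⟩ :=
    exists_contract (V := 1) (ν := 1) hd isClosed_closure hinv hh φ S hS hrow
  obtain ⟨ψ, hψ⟩ := exists_emb ι (hu h' hh')
    (rigid' hd ι (abs_pos.2 hg) (fun h hh => abs_det_closure hh) isClosed_closure hinv hh'
      (fun w hw t => diag_of_line' hd hg hVV hh' hw t) (pl φ) he)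
  refine ⟨ψ, ?_⟩
  have h1 := (isolated_or_dense (g := g) hd hk (hu h' hh') hψ).resolve_right hVV
  have h2 : Tendsto (fun n => diagonal (a n) * h * zR (γ n)) atTop (𝓝[closure (Orb g)] h') :=
    tendsto_nhdsWithin_iff.2 ⟨hlim, Eventually.of_forall fun n => hinv _ hh _ _ (ha n) (hγ n)⟩
  obtain ⟨n, hn⟩ := (h2.eventually h1).exists
  exact act_back hγ2 ha hγ hn

/-- the limit lies in the orbit closure after a change of signs -/
lemma exists_sign {g h : Matrix (Fin d) (Fin d) ℝ} {a : ℕ → Fin d → ℝ}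
    {γ : ℕ → Matrix (Fin d) (Fin d) ℤ} (ha : ∀ n, |∏ i, a n i| = 1) (hγ : ∀ n, IsUnit (γ n).det)
    (hlim : Tendsto (fun n => diagonal (a n) * g * zR (γ n)) atTop (𝓝 h)) :
    ∃ D : Fin d → ℝ, (∀ i, D i * D i = 1) ∧ diagonal D * h ∈ closure (Orb g) := by
  classical
  have ha0 : ∀ n i, a n i ≠ 0 := by
    intro n i h0
    have h3 := ha n
    rw [Finset.prod_eq_zero (Finset.mem_univ i) h0, abs_zero] at h3
    exact zero_ne_one h3
  obtain ⟨b, hb⟩ : ∃ b : Fin d → Bool, ∃ᶠ n in atTop, (fun i => decide (0 < a n i)) = b := by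
    by_contra hcon
    rw [not_exists] at hcon
    have h1 : ∀ᶠ n in atTop, ∀ b : Fin d → Bool, ¬ (fun i => decide (0 < a n i)) = b :=
      Filter.eventually_all.2 fun b => not_frequently.1 (hcon b)
    obtain ⟨n, hn⟩ := h1.exists
    exact hn _ rfl
  set D : Fin d → ℝ := fun i => if b i then 1 else -1 with hD
  have hDD : ∀ i, D i * D i = 1 := by
    intro i
    simp only [hD]
    split_ifs <;> norm_num
  refine ⟨D, hDD, ?_⟩
  obtain ⟨ρ, hρ, hρ2⟩ := extraction_of_frequently_atTop hb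
  refine mem_closure_of_tendsto (f := fun n => diagonal D *
    (diagonal (a (ρ n)) * g * zR (γ (ρ n)))) (b := atTop)
    (tendsto_const_nhds.mul (hlim.comp hρ.tendsto_atTop)) (Eventually.of_forall fun n => ?_)
  have hpos : ∀ i, 0 < D i * a (ρ n) i := by
    intro i
    have h3 : decide (0 < a (ρ n) i) = b i := congrFun (hρ2 n) i
    simp only [hD]
    rw [← h3]
    by_cases h4 : 0 < a (ρ n) i
    · simp [h4]
    · have h5 : a (ρ n) i < 0 := lt_of_le_of_ne (not_lt.1 h4) (ha0 _ _)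
      simp [h4, h5]
  refine ⟨fun i => D i * a (ρ n) i, γ (ρ n), hpos, ?_, hγ _, ?_⟩
  · have hpos' : 0 < ∏ i, (D i * a (ρ n) i) := Finset.prod_pos fun i _ => hpos i
    have habs : |∏ i, (D i * a (ρ n) i)| = 1 := by
      rw [Finset.prod_mul_distrib, abs_mul, ha, mul_one]
      have h5 : (∏ i, D i) * (∏ i, D i) = 1 := by
        rw [← Finset.prod_mul_distrib]
        exact Finset.prod_eq_one fun i _ => hDD i
      have h6 : |∏ i, D i| * |∏ i, D i| = 1 := by rw [← abs_mul, h5, abs_one]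
      have h7 := abs_nonneg (∏ i, D i)
      nlinarith
    rwa [abs_of_pos hpos'] at habs
  · rw [← diagonal_mul_diagonal]
    simp only [Matrix.mul_assoc]

/-- **Rows over a number field: the structure or dense values.** -/
theorem over_field_dense (hk : 3 ≤ Module.finrank ℚ K) (φ : K →+* ℝ) (hs : 0 < s)
    (hks : s * Module.finrank ℚ K ≤ d) (B : Fin s → Fin d → K)
    {g h : Matrix (Fin d) (Fin d) ℝ} (hg : g.det ≠ 0) {a : ℕ → Fin d → ℝ}
    {γ : ℕ → Matrix (Fin d) (Fin d) ℤ} (ha : ∀ n, |∏ i, a n i| = 1) (hγ : ∀ n, IsUnit (γ n).det)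
    (hlim : Tendsto (fun n => diagonal (a n) * g * zR (γ n)) atTop (𝓝 h))
    (S : Finset (Fin d)) (hS : S.card = s)
    (hrow : ∀ i ∈ S, ∃ c : Fin s → ℝ, ∀ j, h i j = ∑ l, c l * φ (B l j)) :
    VV g = Set.univ ∨ (∃ x : Fin d → ℤ, x ≠ 0 ∧ ∀ i ∈ S, ∑ j, h i j * (x j : ℝ) = 0) ∨
    (s * Module.finrank ℚ K = d ∧ ∃ σ : Fin d → K →+* ℝ,
      (∃ ι : K →+* Module.End ℚ (Fin d → ℚ), Act ι σ h) ∧
      (∀ τ : K →+* ℂ, Nat.card {i // ∀ x, τ x = ((σ i x : ℝ) : ℂ)} = s) ∧
      ∀ᶠ n in atTop, ∀ i, ∃ c : Fin s → ℝ, ∀ j, (g * zR (γ n)) i j = ∑ l, c l * σ i (B l j)) := by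
  classical
  by_cases hVV : VV g = Set.univ
  · exact Or.inl hVV
  right
  have hd : 0 < d := lt_of_lt_of_le (Nat.mul_pos hs (by omega)) hks
  by_cases hinj : Function.Injective (bet B)
  swap
  · left
    rw [injective_iff_map_eq_zero] at hinj
    push Not at hinj
    obtain ⟨v, hv, hv0⟩ := hinj
    obtain ⟨x, k, hk, hx, hxk⟩ := exists_clear v hv0
    refine ⟨x, hx, fun i hi => ?_⟩
    obtain ⟨c, hc⟩ := hrow i hi
    have h1 : ∀ l, ∑ j, φ (B l j) * (x j : ℝ) = 0 := by
      intro l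
      have h2 := congrFun hv l
      rw [bet_apply, Pi.zero_apply] at h2
      have h3 := congrArg φ h2
      rw [map_zero, map_sum] at h3
      have h4 : ∀ j, φ (v j • B l j) = (v j : ℝ) * φ (B l j) := by
        intro j
        rw [Algebra.smul_def, map_mul]
        congr 1
        simp
      simp only [h4] at h3
      have h5 : ∀ j, ((x j : ℤ) : ℝ) = k * ((v j : ℚ) : ℝ) := by
        intro j
        have := congrArg (fun t : ℚ => (t : ℝ)) (hxk j)
        push_cast at this
        exact this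
      calc ∑ j, φ (B l j) * (x j : ℝ) = k * ∑ j, (v j : ℝ) * φ (B l j) := by
            rw [Finset.mul_sum]
            refine Finset.sum_congr rfl fun j _ => ?_
            rw [h5]
            ring
        _ = 0 := by rw [h3, mul_zero]
    calc ∑ j, h i j * (x j : ℝ) = ∑ l, c l * ∑ j, φ (B l j) * (x j : ℝ) := by
          simp only [hc, Finset.sum_mul, Finset.mul_sum]
          rw [Finset.sum_comm]
          refine Finset.sum_congr rfl fun l _ => Finset.sum_congr rfl fun j _ => ?_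
          ring
      _ = 0 := by simp only [h1, mul_zero, Finset.sum_const_zero]
  right
  have hhM : h ∈ closure (OrbS g) := mem_closure_of_tendsto hlim
    (Eventually.of_forall fun n => ⟨a n, γ n, ha n, hγ n, rfl⟩)
  have hu : IsUnit h.det := limit_unit hg hhM
  have hfr : Module.finrank ℚ (Fin s → K) = s * Module.finrank ℚ K := by
    rw [Module.finrank_pi_fintype]
    simp
  have hdim : d = s * Module.finrank ℚ K := by
    refine le_antisymm ?_ hks
    have h1 := LinearMap.finrank_le_finrank_of_injective hinj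
    rwa [hfr, Module.finrank_fintype_fun_eq_card, Fintype.card_fin] at h1
  let e : (Fin d → ℚ) ≃ₗ[ℚ] (Fin s → K) := LinearMap.linearEquivOfInjective (bet B) hinj (by
    rw [hfr, Module.finrank_fintype_fun_eq_card, Fintype.card_fin, ← hdim])
  have he : ∀ j l, e (Pi.single j 1) l = B l j := fun j l => bet_single B j l
  obtain ⟨D, hDD, hDh⟩ := exists_sign ha hγ hlim
  obtain ⟨ψ, hψ'⟩ := act_of_rows_dense hd hk (iotaB e) hg hVV hDh φ S (by rw [hS, hdim])
    (fun i hi => (eig_iff e φ _).2 (by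
      obtain ⟨c, hc⟩ := hrow i hi
      refine ⟨fun l => D i * c l, fun j => ?_⟩
      rw [diagonal_mul, hc j, Finset.mul_sum]
      refine Finset.sum_congr rfl fun l _ => ?_
      rw [he]
      ring))
  have hψ : Act (iotaB e) ψ h := (act_sign hDD).1 hψ'
  refine ⟨hdim.symm, ψ, ⟨iotaB e, hψ⟩, count_emb he hdim hu hψ, ?_⟩
  filter_upwards [(isolation_dense hd hk hg hψ ha hγ hlim).resolve_right hVV] with n hn i
  obtain ⟨c, hc⟩ := comb_of_act he hn i
  have ha0 : a n i ≠ 0 := by
    intro h0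
    have h3 := ha n
    rw [Finset.prod_eq_zero (Finset.mem_univ i) h0, abs_zero] at h3
    exact zero_ne_one h3
  refine ⟨fun l => (a n i)⁻¹ * c l, fun j => ?_⟩
  have h3 := hc j
  rw [Matrix.mul_assoc, diagonal_mul] at h3
  have h4 : (g * zR (γ n)) i j = (a n i)⁻¹ * (a n i * (g * zR (γ n)) i j) := by
    rw [← mul_assoc, inv_mul_cancel₀ ha0, one_mul]
  rw [h4, h3, Finset.mul_sum]
  refine Finset.sum_congr rfl fun l _ => ?_
  ring

end Pool.Agent.V7H90.Iso
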