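import Mathlib
import Pool.Agent.V7H90.Iso.RowsD

/-! # The isolation theorem: final forms -/

open Filter Topology Matrix NumberField

set_option linter.unusedSectionVars false

namespace Pool.Agent.V7H90.Iso

open H715R2 Pool.Agent.Y327 RatSpan

variable {d s : ℕ}

lemma cj_iff {γ : Matrix (Fin d) (Fin d) ℤ} (hγ : IsUnit γ.det) {A B : Set (Matrix (Fin d) (Fin d) ℚ)}
    (h : ∀ σ, cj γ σ ∈ A ↔ σ ∈ B) (σ : Matrix (Fin d) (Fin d) ℚ) :
    σ ∈ A ↔ gq γ * σ * gq γ⁻¹ ∈ B := by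
  rw [← h, cj_apply]
  have h1 : gq γ⁻¹ * (gq γ * σ * gq γ⁻¹) * gq γ = σ := by
    calc gq γ⁻¹ * (gq γ * σ * gq γ⁻¹) * gq γ = (gq γ⁻¹ * gq γ) * σ * (gq γ⁻¹ * gq γ) := by
          simp only [Matrix.mul_assoc]
      _ = σ := by rw [gq_inv' hγ, Matrix.one_mul, Matrix.mul_one]
  rw [h1]

/-- the statement on rows over a real number field -/
theorem over_field' (K : IntermediateField ℚ ℝ) (hfin : FiniteDimensional ℚ K)
    (hk : 3 ≤ Module.finrank ℚ K) (hs : 0 < s)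
    (hks : s * Module.finrank ℚ K ≤ d) (B : Fin s → Fin d → K)
    {g h : Matrix (Fin d) (Fin d) ℝ} (hg : g.det ≠ 0) {a : ℕ → Fin d → ℝ}
    {γ : ℕ → Matrix (Fin d) (Fin d) ℤ} (ha : ∀ n, |∏ i, a n i| = 1) (hγ : ∀ n, IsUnit (γ n).det)
    (hlim : Tendsto (fun n => diagonal (a n) * g * zR (γ n)) atTop (𝓝 h))
    (S : Finset (Fin d)) (hS : S.card = s)
    (hrow : ∀ i ∈ S, ∃ c : Fin s → ℝ, ∀ j, h i j = ∑ l, c l * (B l j : ℝ)) :
    (∀ t ε : ℝ, 0 < ε → ∃ x : Fin d → ℤ, x ≠ 0 ∧ |FF g (iR x) - t| < ε) ∨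
    (Sml g ∧ ∃ x : Fin d → ℤ, x ≠ 0 ∧ ∀ i ∈ S, ∑ j, h i j * (x j : ℝ) = 0) ∨
    (s * Module.finrank ℚ K = d ∧ ∃ σ : Fin d → K →+* ℝ,
      (∀ τ : K →+* ℂ, Nat.card {i // ∀ x, τ x = ((σ i x : ℝ) : ℂ)} = s) ∧
      ∀ᶠ n in atTop, ∀ i, ∃ c : Fin s → ℝ, ∀ j,
        (g * zR (γ n)) i j = ∑ l, c l * σ i (B l j)) := by
  have hnf : NumberField K := @NumberField.mk K _ inferInstance hfin
  have hd : 0 < d := lt_of_lt_of_le (Nat.mul_pos hs (by omega)) hks
  rcases over_field_dense hk (algebraMap K ℝ) hs hks B hg ha hγ hlim S hS hrow with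
    h1 | ⟨x, hx, hx0⟩ | ⟨h1, σ, -, h2, h3⟩
  · exact Or.inl fun t ε hε => dense_ne hd h1 t ε hε
  · right; left
    refine ⟨?_, x, hx, hx0⟩
    have hSne : S.Nonempty := by
      rw [← Finset.card_pos, hS]
      exact hs
    obtain ⟨i, hi⟩ := hSne
    exact sml_of_zero (mem_closure_of_tendsto hlim
      (Eventually.of_forall fun n => ⟨a n, γ n, ha n, hγ n, rfl⟩)) hx
      (FF_zero_of_row (i := i) (hx0 i hi))
  · exact Or.inr (Or.inr ⟨h1, σ, h2, h3⟩)

/-- the dimension of the algebra of symmetries divides the dimension -/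
lemma dvd_dim (hd : 0 < d) {g h : Matrix (Fin d) (Fin d) ℝ} (hg : g.det ≠ 0)
    (hsm : ¬ Sml g) (hh : h ∈ closure (OrbS g)) : Module.finrank ℚ (Sy h) ∣ d := by
  obtain ⟨ν, hν, hnu⟩ := hasNu_of_not_sml hsm
  have hu := limit_unit hg hh
  obtain ⟨K, _, _, ι, hι⟩ := exists_numberField (symA h hu)
    (symA_isField hd hν (orbS_nu hnu hh) hu)
  have : Nonempty (Fin d) := ⟨⟨0, hd⟩⟩
  have hinj : Function.Injective ι := ι.injective
  have hfr : Module.finrank ℚ K = Module.finrank ℚ (symA h hu) := by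
    have h1 := LinearEquiv.finrank_eq (LinearEquiv.ofInjective (ι.toRatAlgHom).toLinearMap hinj)
    rw [h1]
    have h2 : LinearMap.range (ι.toRatAlgHom).toLinearMap = Subalgebra.toSubmodule (symA h hu) := by
      ext f
      constructor
      · rintro ⟨x, hx⟩
        exact (hι f).2 ⟨x, hx⟩
      · intro hf
        obtain ⟨x, hx⟩ := (hι f).1 hf
        exact ⟨x, hx⟩
    rw [h2]
    rfl
  rw [finrank_Sy hu, ← hfr]
  letI : Module K (Fin d → ℚ) := Module.compHom (Fin d → ℚ) ι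
  have hsm' : ∀ (x : K) (v : Fin d → ℚ), x • v = ι x v := fun _ _ => rfl
  have htower : IsScalarTower ℚ K (Fin d → ℚ) := ⟨fun q x v => by
    rw [hsm', hsm', map_rat_smul]
    rfl⟩
  have h1 := Module.finrank_mul_finrank ℚ K (Fin d → ℚ)
  rw [Module.finrank_fintype_fun_eq_card, Fintype.card_fin] at h1
  exact Dvd.intro _ h1

/-- the statement on the symmetries -/
theorem constancy' (hd : 0 < d) {g h : Matrix (Fin d) (Fin d) ℝ} (hg : g.det ≠ 0)
    (hsm : ¬ Sml g) {a : ℕ → Fin d → ℝ}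
    {γ : ℕ → Matrix (Fin d) (Fin d) ℤ} (ha : ∀ n, |∏ i, a n i| = 1) (hγ : ∀ n, IsUnit (γ n).det)
    (hlim : Tendsto (fun n => diagonal (a n) * g * zR (γ n)) atTop (𝓝 h)) :
    (∀ᶠ n in atTop, ∀ T, T ∈ (Sy h : Set (Matrix (Fin d) (Fin d) ℚ)) ↔
      gq (γ n) * T * gq (γ n)⁻¹ ∈ (Sy g : Set (Matrix (Fin d) (Fin d) ℚ))) ∨
    ((Sy g : Set (Matrix (Fin d) (Fin d) ℚ)) =
      Set.range (fun q : ℚ => q • (1 : Matrix (Fin d) (Fin d) ℚ)) ∧
      Module.finrank ℚ (Submodule.span ℚ (Sy h : Set (Matrix (Fin d) (Fin d) ℚ))) = 2 ∧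
      2 ∣ d) := by
  have : Nonempty (Fin d) := ⟨⟨0, hd⟩⟩
  rcases constancy hd hg hsm ha hγ hlim with h1 | ⟨h1, h2⟩
  · left
    filter_upwards [h1] with n hn T
    exact cj_iff (hγ n) (A := (Sy h : Set _)) (B := (Sy g : Set _)) hn T
  · right
    refine ⟨?_, ?_, ?_⟩
    · ext T
      constructor
      · intro hT
        have hb : (Sy g) = ⊥ := by
          rw [← Subalgebra.finrank_eq_one_iff]
          exact h1
        have hT' : T ∈ Sy g := hT
        rw [hb, Algebra.mem_bot] at hT'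
        obtain ⟨q, rfl⟩ := hT'
        exact ⟨q, by rw [Algebra.algebraMap_eq_smul_one]⟩
      · rintro ⟨q, rfl⟩
        exact (Sy g).smul_mem (Sy g).one_mem q
    · have h3 : Submodule.span ℚ (Sy h : Set (Matrix (Fin d) (Fin d) ℚ)) =
          Subalgebra.toSubmodule (Sy h) := Submodule.span_eq (Subalgebra.toSubmodule (Sy h))
      rw [h3]
      exact h2
    · have hhM : h ∈ closure (OrbS g) := mem_closure_of_tendsto hlim
        (Eventually.of_forall fun n => ⟨a n, γ n, ha n, hγ n, rfl⟩)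
      have h4 := dvd_dim hd hg hsm hhM
      rwa [h2] at h4

end Pool.Agent.V7H90.Iso
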